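import Pool.Agent.Run7.h827.MP.Prod
import Pool.Agent.R852.PP.FE

set_option autoImplicit false
set_option linter.unusedSectionVars false
set_option linter.unusedVariables false

/-! # Orders of poles and multiplicities of roots -/

namespace Pool.Agent.Run7.h827.MP

open Pool.Agent.W427.SMC Pool.Agent.TH192.PA Pool.Agent.TH192.DT Polynomial
open Pool.Agent.R852.PP (phiA functionalEq_strong gen form)
open Pool.Agent.H628R4.TP (IsBFunction)
open Pool.Agent.W574.LM (IsLocEq)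
open Pool.Agent.Run7.h827.HM

section Gen

variable {σ S T I : Type} [Fintype σ] [DecidableEq σ] [Fintype S] [DecidableEq S] [Fintype T]
  [DecidableEq T] [Fintype I] [DecidableEq I] {κ : S → Type} [∀ s, Fintype (κ s)]
  [∀ s, DecidableEq (κ s)]
  (g : (s : S) → κ s → MvPolynomial σ ℂ) (hg : ∀ s, ∃ j, g s j ≠ 0) (k : I → ℕ)
    (m : I → S → ℕ) (e : T → S → ℕ) (a : T → ℕ)
    (hE : ∀ i, 0 < mulG m e a (Sum.inl i) → HasChart g (k i) (m i) (Occ e a))

include hg hE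

/-- **The factor of the strict transforms, and the roots of the other factor.** -/
theorem split_gen (t0 : T) (ht0 : a t0 ≠ 0) (b : ℂ[X])
    (hb : IsBFunction (powProd a fun t => mixFam g (e t)) b) :
    ∃ b' : ℂ[X], b = phiA a * b' ∧ ∀ i : I, ∀ l : ℕ, l < mulG m e a (Sum.inl i) →
        b'.eval (-((nuG k T (Sum.inl i) : ℂ) + l) / mulG m e a (Sum.inl i)) = 0 := by
  have hb1 : IsBFunction (form a 1 fun t => mixFam g (e t)) b := by
    unfold form
    rw [map_one, one_mul]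
    exact hb
  obtain ⟨b', h1, h2⟩ := functionalEq_strong a 1 (fun t => mixFam g (e t)) one_ne_zero
    (fun t => mixFam_ne g hg (e t)) t0 ht0 b hb1
  refine ⟨b', h1, fun i l hl => ?_⟩
  have h3 : gen a (1 : MvPolynomial σ ℂ) (fun t => mixFam g (e t)) =
      prodFam fun q : Σ t, Fin (a t) => mixFam g (e q.1) := by
    funext J
    unfold gen
    rw [one_mul]
  rw [h3] at h2
  have h4 : IsLocEq 1 (prodFam fun q : Σ t, Fin (a t) => mixFam g (e q.1)) b' := by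
    obtain ⟨U, P, h5, h6⟩ := h2
    refine ⟨U, P, h5, fun s => ?_⟩
    rw [one_mul]
    exact h6 s
  exact gen_ideal_roots g (k i) (m i) e a (hE i (lt_of_le_of_lt (Nat.zero_le _) hl)) b' 1
    (by rw [map_one]; exact one_ne_zero) h4 l hl

end Gen

theorem strict_dvd {T : Type} [Fintype T] (a : T → ℕ) (r : ℂ) :
    (X - C r) ^ Nat.card {t // 0 < a t ∧ (a t : ℂ) * r = -1} ∣ phiA a := by
  classical
  rw [Nat.card_eq_fintype_card, Fintype.card_subtype]
  unfold phiA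
  rw [← Finset.prod_const, Finset.prod_filter]
  refine Finset.prod_dvd_prod_of_dvd _ _ fun t _ => ?_
  split_ifs with h
  · refine dvd_trans ?_ (Finset.dvd_prod_of_mem _ (Finset.mem_range.2 h.1))
    rw [dvd_iff_isRoot, IsRoot.def, eval_add, eval_mul, eval_C, eval_X, eval_C, h.2]
    push_cast
    ring
  · exact one_dvd _

section Gen2

variable {σ S T I : Type} [Fintype σ] [DecidableEq σ] [Fintype S] [DecidableEq S] [Fintype T]
  [DecidableEq T] [Fintype I] [DecidableEq I] {κ : S → Type} [∀ s, Fintype (κ s)]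
  [∀ s, DecidableEq (κ s)]
  (g : (s : S) → κ s → MvPolynomial σ ℂ) (hg : ∀ s, ∃ j, g s j ≠ 0) (k : I → ℕ)
    (m : I → S → ℕ) (e : T → S → ℕ) (a : T → ℕ)
    (hE : ∀ i, 0 < mulG m e a (Sum.inl i) → HasChart g (k i) (m i) (Occ e a))
  (q : ℕ) [Fact q.Prime]

/-- **Multiplicities of the roots** at a point where at most one of the divisors `E_i` counts. -/
theorem dvd_gen
    (hg : ∀ s, ∃ j, g s j ≠ 0)
    (hE : ∀ i, 0 < mulG m e a (Sum.inl i) → HasChart g (k i) (m i) (Occ e a)) (x : ℂ)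
    (hx : Nat.card {i // 0 < mulG m e a (Sum.inl i) ∧
      x ^ mulG m e a (Sum.inl i) = (q : ℂ) ^ nuG k T (Sum.inl i)} ≤ 1) (b : ℂ[X])
    (hb : IsBFunction (powProd a fun t => mixFam g (e t)) b) :
    (X - C ((-Real.log ‖x‖ / Real.log q : ℝ) : ℂ)) ^ cntP q (nuG k T) (mulG m e a) x ∣ b := by
  classical
  have hq1 : 1 < q := (Fact.out : q.Prime).one_lt
  have hsplit : cntP q (nuG k T) (mulG m e a) x =
      Nat.card {i // 0 < mulG m e a (Sum.inl i) ∧
        x ^ mulG m e a (Sum.inl i) = (q : ℂ) ^ nuG k T (Sum.inl i)} +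
      Nat.card {t // 0 < mulG m e a (Sum.inr t) ∧
        x ^ mulG m e a (Sum.inr t) = (q : ℂ) ^ nuG k T (Sum.inr t)} := by
    unfold cntP
    rw [← Nat.card_sum]
    exact Nat.card_congr Equiv.subtypeSum
  by_cases ht : ∃ t0, a t0 ≠ 0
  · obtain ⟨t0, ht0⟩ := ht
    obtain ⟨b', h1, h2⟩ := split_gen g hg k m e a hE t0 ht0 b hb
    rw [hsplit, h1, add_comm, pow_add]
    refine mul_dvd_mul ?_ ?_
    · refine dvd_trans (pow_dvd_pow _ ?_) (strict_dvd a _)
      refine Nat.card_le_card_of_injective (fun t => (⟨t.1, t.2.1, ?_⟩ :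
        {t // 0 < a t ∧ (a t : ℂ) * ((-Real.log ‖x‖ / Real.log q : ℝ) : ℂ) = -1})) ?_
      · have h3 := norm_of_pow q 1 (a t.1) hq1 t.2.1 x (by rw [Nat.cast_pow]; exact t.2.2)
        rw [h3]
        have h4 : (a t.1 : ℂ) ≠ 0 := by exact_mod_cast t.2.1.ne'
        push_cast
        field_simp
      · intro i j h
        apply Subtype.ext
        exact congrArg (fun z : {t // 0 < a t ∧
          (a t : ℂ) * ((-Real.log ‖x‖ / Real.log q : ℝ) : ℂ) = -1} => z.1) h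
    · rcases Nat.le_one_iff_eq_zero_or_eq_one.1 hx with h3 | h3
      · rw [h3, pow_zero]
        exact one_dvd _
      · rw [h3, pow_one, dvd_iff_isRoot, IsRoot.def]
        obtain ⟨⟨v, hv, hs⟩⟩ := (Nat.card_pos_iff.1 (by rw [h3]; exact Nat.one_pos)).1
        have h4 := h2 v 0 hv
        rw [norm_of_pow q (nuG k T (Sum.inl v)) (mulG m e a (Sum.inl v)) hq1 hv x
          (by rw [Nat.cast_pow]; exact hs)]
        rw [Nat.cast_zero, add_zero] at h4
        push_cast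
        rw [← neg_div]
        exact h4
  · have h0 : cntP q (nuG k T) (mulG m e a) x = 0 := by
      unfold cntP
      rw [Nat.card_eq_zero]
      left
      refine ⟨fun i => ?_⟩
      obtain ⟨i, hi, -⟩ := i
      push Not at ht
      rcases i with v | t
      · change 0 < ∑ t, a t * _ at hi
        rw [Finset.sum_eq_zero fun t _ => by rw [ht t, zero_mul]] at hi
        exact lt_irrefl _ hi
      · change 0 < a t at hi
        rw [ht t] at hi
        exact lt_irrefl _ hi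
    rw [h0, pow_zero]
    exact one_dvd _

/-- every pole gives a root -/
theorem root_gen
    (hg : ∀ s, ∃ j, g s j ≠ 0)
    (hE : ∀ i, 0 < mulG m e a (Sum.inl i) → HasChart g (k i) (m i) (Occ e a)) (x : ℂ)
    (hx : 0 < cntP q (nuG k T) (mulG m e a) x) (b : ℂ[X])
    (hb : IsBFunction (powProd a fun t => mixFam g (e t)) b) :
    b.eval ((-Real.log ‖x‖ / Real.log q : ℝ) : ℂ) = 0 := by
  have hq1 : 1 < q := (Fact.out : q.Prime).one_lt
  obtain ⟨⟨i, hi, hs⟩⟩ := (Nat.card_pos_iff.1 hx).1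
  rw [norm_of_pow q (nuG k T i) (mulG m e a i) hq1 hi x (by rw [Nat.cast_pow]; exact hs)]
  have h4 := gen_roots g hg k m e a hE b (Or.inl hb) i 0 hi
  rw [Nat.cast_zero, add_zero] at h4
  push_cast
  rw [← neg_div]
  exact h4

variable {W : Type} [Fintype W] (f : MvPolynomial W ℤ)

/-- **Orders of poles and multiplicities of roots.** -/
theorem order_gen
    (hg : ∀ s, ∃ j, g s j ≠ 0)
    (hE : ∀ i, 0 < mulG m e a (Sum.inl i) → HasChart g (k i) (m i) (Occ e a))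
    (hf : ProdZeta q f (nuG k T) (mulG m e a)) (Z : ℂ → ℂ) (hZ : MeromorphicOn Z Set.univ)
    (hI : ∀ s : ℂ, 0 < s.re → Z s = igusaZeta q f s) (s₀ : ℂ)
    (h1 : Nat.card {i // 0 < mulG m e a (Sum.inl i) ∧
      ((q : ℂ) ^ (-s₀)) ^ mulG m e a (Sum.inl i) = (q : ℂ) ^ nuG k T (Sum.inl i)} ≤ 1) (b : ℂ[X])
    (hb0 : b ≠ 0)
    (hb : IsBFunction (powProd a fun t => mixFam g (e t)) b) :
    ((-(b.rootMultiplicity (s₀.re : ℂ) : ℤ) : ℤ) : WithTop ℤ) ≤ meromorphicOrderAt Z s₀ := by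
  rw [abs_order (nuG_pos k) hf Z hZ hI s₀]
  have h2 := dvd_gen g k m e a q hg hE ((q : ℂ) ^ (-s₀)) h1 b hb
  rw [← pw_cpow q s₀, pw_norm] at h2
  have h3 := (le_rootMultiplicity_iff hb0).2 h2
  rw [pw_cpow q s₀] at h3
  rw [WithTop.coe_le_coe]
  omega

theorem zroot_gen
    (hg : ∀ s, ∃ j, g s j ≠ 0)
    (hE : ∀ i, 0 < mulG m e a (Sum.inl i) → HasChart g (k i) (m i) (Occ e a))
    (hf : ProdZeta q f (nuG k T) (mulG m e a)) (Z : ℂ → ℂ) (hZ : MeromorphicOn Z Set.univ)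
    (hI : ∀ s : ℂ, 0 < s.re → Z s = igusaZeta q f s) (s₀ : ℂ)
    (hs₀ : meromorphicOrderAt Z s₀ < 0) (b : ℂ[X])
    (hb : IsBFunction (powProd a fun t => mixFam g (e t)) b) :
    b.eval (s₀.re : ℂ) = 0 := by
  rw [abs_order (nuG_pos k) hf Z hZ hI s₀] at hs₀
  have h1 : 0 < cntP q (nuG k T) (mulG m e a) ((q : ℂ) ^ (-s₀)) := by
    have h2 : (-(cntP q (nuG k T) (mulG m e a) ((q : ℂ) ^ (-s₀)) : ℤ)) < 0 := by
      exact_mod_cast hs₀
    omega
  have h3 := root_gen g k m e a q hg hE _ h1 b hb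
  rw [← pw_cpow q s₀, pw_norm] at h3
  exact h3

/-- **The theorem for the Poincaré series.** -/
theorem proot_gen
    (hg : ∀ s, ∃ j, g s j ≠ 0)
    (hE : ∀ i, 0 < mulG m e a (Sum.inl i) → HasChart g (k i) (m i) (Occ e a))
    (hf : ProdZeta q f (nuG k T) (mulG m e a)) (T₀ : ℂ) (r : ℕ)
    (hr : 0 < r) (h : Pool.Agent.W206.CU.IsPoleOfOrder (poincare q f) T₀ r) (b : ℂ[X])
    (hb : IsBFunction (powProd a fun t => mixFam g (e t)) b) :
    b.eval ((-Real.log ‖T₀‖ / Real.log q : ℝ) : ℂ) = 0 := by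
  have h1 := (abs_poles (nuG_pos k) hf T₀ r hr).1 h
  exact root_gen g k m e a q hg hE T₀ (by rw [h1]; exact hr) b hb

end Gen2

section Tree

open Pool.Agent.Run7.h827.MT

variable {T : Type} [Fintype T] [DecidableEq T] (G : MTree) (q : ℕ) [Fact q.Prime]

theorem tree_prod (e : T → G.Cell → ℕ) (a : T → ℕ) :
    ProdZeta q (formZ (genZ G) e a) (G.nu T) (G.mul e a) := by
  intro s hs
  have h := igusa_rat G q e a s hs
  rw [Polynomial.eval_C] at h
  exact h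

/-- the zeta function in the half plane -/
theorem tree_complex (e : T → G.Cell → ℕ) (a : T → ℕ) (s : ℂ) (hs : 0 < s.re) :
    igusaZeta q (formZ (genZ G) e a) s = ∏ x : G.Cell ⊕ T, ((q : ℂ) ^ G.nu T x - 1) /
      ((q : ℂ) ^ G.nu T x - ((q : ℂ) ^ (-s)) ^ G.mul e a x) :=
  abs_complex (nu_pos G) (tree_prod G q e a) s hs

theorem tree_ord (e : T → G.Cell → ℕ) (a : T → ℕ) (Z : ℂ → ℂ) (hZ : MeromorphicOn Z Set.univ)
    (h : ∀ s : ℂ, 0 < s.re → Z s = igusaZeta q (formZ (genZ G) e a) s) (s0 : ℂ) :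
    meromorphicOrderAt Z s0 = ((-(Nat.card {x : G.Cell ⊕ T // 0 < G.mul e a x ∧
      ((q : ℂ) ^ (-s0)) ^ G.mul e a x = (q : ℂ) ^ G.nu T x} : ℤ) : ℤ) : WithTop ℤ) :=
  abs_order (nu_pos G) (tree_prod G q e a) Z hZ h s0

theorem tree_zroot (e : T → G.Cell → ℕ) (a : T → ℕ) (hd : G.Down e a) (Z : ℂ → ℂ)
    (hZ : MeromorphicOn Z Set.univ)
    (h : ∀ s : ℂ, 0 < s.re → Z s = igusaZeta q (formZ (genZ G) e a) s) (s0 : ℂ)
    (hs0 : meromorphicOrderAt Z s0 < 0) (b : ℂ[X])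
    (hb : IsBFunction (MvPolynomial.map (Int.castRingHom ℂ) (formZ (genZ G) e a)) b) :
    b.eval (s0.re : ℂ) = 0 := by
  rw [map_treeZ] at hb
  exact zroot_gen G.gen _ _ e a q _ (gen_ne G) (charts G e a hd) (tree_prod G q e a) Z hZ h s0
    hs0 b hb

theorem tree_mult (e : T → G.Cell → ℕ) (a : T → ℕ) (hd : G.Down e a) (Z : ℂ → ℂ)
    (hZ : MeromorphicOn Z Set.univ)
    (h : ∀ s : ℂ, 0 < s.re → Z s = igusaZeta q (formZ (genZ G) e a) s) (s0 : ℂ)
    (h1 : Nat.card {p : G.Cell // 0 < G.mul e a (Sum.inl p) ∧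
      ((q : ℂ) ^ (-s0)) ^ G.mul e a (Sum.inl p) = (q : ℂ) ^ G.nu T (Sum.inl p)} ≤ 1)
    (b : ℂ[X]) (hb0 : b ≠ 0)
    (hb : IsBFunction (MvPolynomial.map (Int.castRingHom ℂ) (formZ (genZ G) e a)) b) :
    ((-(b.rootMultiplicity (s0.re : ℂ) : ℤ) : ℤ) : WithTop ℤ) ≤ meromorphicOrderAt Z s0 := by
  rw [map_treeZ] at hb
  exact order_gen G.gen _ _ e a q _ (gen_ne G) (charts G e a hd) (tree_prod G q e a) Z hZ h s0
    h1 b hb0 hb

theorem tree_psum (e : T → G.Cell → ℕ) (a : T → ℕ) :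
    ((((∏ x : G.Cell ⊕ T, (C ((q : ℂ) ^ G.nu T x) - X ^ G.mul e a x)) * (1 - X) : ℂ[X])) :
      PowerSeries ℂ) * poincare q (formZ (genZ G) e a) =
        ((((∏ x : G.Cell ⊕ T, (C ((q : ℂ) ^ G.nu T x) - X ^ G.mul e a x)) -
          C (∏ x : G.Cell ⊕ T, ((q : ℂ) ^ G.nu T x - 1)) * X : ℂ[X])) : PowerSeries ℂ) :=
  abs_poincare' (tree_prod G q e a)

theorem tree_poles (e : T → G.Cell → ℕ) (a : T → ℕ) (T₀ : ℂ) (r : ℕ) (hr : 0 < r) :
    Pool.Agent.W206.CU.IsPoleOfOrder (poincare q (formZ (genZ G) e a)) T₀ r ↔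
      Nat.card {x : G.Cell ⊕ T // 0 < G.mul e a x ∧ T₀ ^ G.mul e a x = (q : ℂ) ^ G.nu T x}
        = r :=
  abs_poles (nu_pos G) (tree_prod G q e a) T₀ r hr

theorem tree_proot (e : T → G.Cell → ℕ) (a : T → ℕ) (hd : G.Down e a) (T₀ : ℂ) (r : ℕ)
    (hr : 0 < r)
    (h : Pool.Agent.W206.CU.IsPoleOfOrder (poincare q (formZ (genZ G) e a)) T₀ r) (b : ℂ[X])
    (hb : IsBFunction (MvPolynomial.map (Int.castRingHom ℂ) (formZ (genZ G) e a)) b) :
    b.eval ((-Real.log ‖T₀‖ / Real.log q : ℝ) : ℂ) = 0 := by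
  rw [map_treeZ] at hb
  exact proot_gen G.gen _ _ e a q _ (gen_ne G) (charts G e a hd) (tree_prod G q e a) T₀ r hr h
    b hb

end Tree

end Pool.Agent.Run7.h827.MP
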