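import Pool.Agent.Run7.h827.MP.Form

set_option autoImplicit false
set_option linter.unusedSectionVars false
set_option linter.unusedVariables false

/-! # The poles of the zeta functions and their orders -/

namespace Pool.Agent.Run7.h827.MP

open Filter Topology Polynomial Pool.Agent.TH192.PA Pool.Agent.TH192.DT Pool.Agent.W427.SMC
  MeasureTheory Pool.Agent.Run7.h827.MT

attribute [local instance] msZ bsZ

variable (q : ℕ) [Fact q.Prime]

theorem mero_eq (R : ℂ[X]) (hR : R ≠ 0) (c : ℂ) (hc : c ≠ 0) (g : ℂ → ℂ)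
    (hg : MeromorphicOn g Set.univ)
    (h : ∀ s : ℝ, 0 < s → R.eval (pw q s) * g s = c) (s0 : ℂ) :
    meromorphicOrderAt g s0 = ((-(R.rootMultiplicity (pw q s0) : ℤ) : ℤ) : WithTop ℤ) := by
  set F1 : ℂ → ℂ := (fun s => R.eval (pw q s)) * g with hF1
  set F2 : ℂ → ℂ := fun s => c with hF2
  have hRa : ∀ s, AnalyticAt ℂ (fun s => R.eval (pw q s)) s := fun s =>
    (R.differentiable.analyticAt (pw q s)).comp (pw_analytic q s)
  have hPa : ∀ s, AnalyticAt ℂ F2 s := fun s => analyticAt_const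
  have hm : MeromorphicOn (F1 - F2) Set.univ := fun s hs =>
    ((hRa s).meromorphicAt.mul (hg s hs)).sub (hPa s).meromorphicAt
  have h1 : meromorphicOrderAt (F1 - F2) 1 = ⊤ := by
    by_contra hne
    have h2 := (meromorphicOrderAt_ne_top_iff_eventually_ne_zero (hm 1 (Set.mem_univ _))).1 hne
    rw [eventually_nhdsWithin_iff, Metric.eventually_nhds_iff] at h2
    obtain ⟨ε, hε, h3⟩ := h2
    have h4 := h3 (y := ((1 + ε / 2 : ℝ) : ℂ)) (by
      rw [dist_eq_norm]
      have : ((1 + ε / 2 : ℝ) : ℂ) - 1 = ((ε / 2 : ℝ) : ℂ) := by push_cast; ring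
      rw [this, Complex.norm_real, Real.norm_of_nonneg (by positivity)]
      linarith) (by
      intro h5
      have h6 : ((1 + ε / 2 : ℝ) : ℂ) = ((1 : ℝ) : ℂ) := by simpa using h5
      have h7 := Complex.ofReal_injective h6
      linarith)
    apply h4
    simp only [Pi.sub_apply, hF1, hF2, Pi.mul_apply]
    rw [h (1 + ε / 2) (by positivity), sub_self]
  have h2 : meromorphicOrderAt (F1 - F2) s0 = ⊤ := by
    by_contra hne
    exact hm.meromorphicOrderAt_ne_top_of_isPreconnected isPreconnected_univ (Set.mem_univ s0)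
      (Set.mem_univ 1) hne h1
  have h3 : F1 =ᶠ[𝓝[≠] s0] F2 := by
    rw [meromorphicOrderAt_eq_top_iff] at h2
    filter_upwards [h2] with z hz
    exact sub_eq_zero.1 hz
  have h4 : meromorphicOrderAt F1 s0 = meromorphicOrderAt F2 s0 := meromorphicOrderAt_congr h3
  have h5 : meromorphicOrderAt F1 s0 = 0 := by
    rw [h4]
    exact (hPa s0).meromorphicOrderAt_eq.trans (by
      rw [(hPa s0).analyticOrderAt_eq_zero.2 hc]
      rfl)
  rw [hF1, meromorphicOrderAt_mul (hRa s0).meromorphicAt (hg s0 (Set.mem_univ _))] at h5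
  have h6 : meromorphicOrderAt (fun s => R.eval (pw q s)) s0 =
      (R.rootMultiplicity (pw q s0) : ℤ) := by
    have := meromorphicOrderAt_comp_of_deriv_ne_zero (f := fun z => R.eval z) (pw_analytic q s0)
      (pw_deriv q s0)
    rw [order_poly R hR] at this
    exact this
  rw [h6] at h5
  rcases hgo : meromorphicOrderAt g s0 with _ | n
  · rw [hgo] at h5
    have h7 : ((Polynomial.rootMultiplicity (pw q s0) R : ℤ) : WithTop ℤ) + (⊤ : WithTop ℤ) = 0 := h5
    rw [WithTop.add_top] at h7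
    exact absurd h7 (by exact WithTop.top_ne_coe)
  · rw [hgo] at h5
    change ((R.rootMultiplicity (pw q s0) : ℤ) : WithTop ℤ) + ((n : ℤ) : WithTop ℤ)
      = ((0 : ℤ) : WithTop ℤ) at h5
    change ((n : ℤ) : WithTop ℤ) = ((-(R.rootMultiplicity (pw q s0) : ℤ) : ℤ) : WithTop ℤ)
    rw [← WithTop.coe_add, WithTop.coe_inj] at h5
    rw [WithTop.coe_inj]
    omega

theorem fac_rm_eq (ν N : ℕ) (hν : 0 < ν) (x : ℂ) [Decidable (0 < N ∧ x ^ N = ((q ^ ν : ℕ) : ℂ))] :
    (C ((q ^ ν : ℕ) : ℂ) - X ^ N : ℂ[X]).rootMultiplicity x =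
      if 0 < N ∧ x ^ N = ((q ^ ν : ℕ) : ℂ) then 1 else 0 := by
  have hq : 1 < q := (Fact.out : q.Prime).one_lt
  refine le_antisymm ?_ ?_
  · refine (fac_rm q ν N hq hν x).trans (le_of_eq ?_)
    split_ifs <;> rfl
  · split_ifs with h
    · rw [Nat.succ_le_iff, Polynomial.rootMultiplicity_pos (fac_ne q ν N hq hν),
        Polynomial.IsRoot.def, Polynomial.eval_sub, Polynomial.eval_C, Polynomial.eval_pow,
        Polynomial.eval_X, h.2, sub_self]
    · exact Nat.zero_le _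

theorem Rc_rm_eq {ι : Type} [Fintype ι] (ν N : ι → ℕ) (hν : ∀ i, 0 < ν i) (x : ℂ) :
    (Rc q ν N).rootMultiplicity x = Nat.card {i // 0 < N i ∧ x ^ N i = ((q ^ ν i : ℕ) : ℂ)} := by
  classical
  have hq : 1 < q := (Fact.out : q.Prime).one_lt
  unfold Rc
  rw [rm_prod _ _ (fun i _ => fac_ne q (ν i) (N i) hq (hν i))]
  rw [Nat.card_eq_fintype_card, Fintype.card_subtype, Finset.card_filter]
  refine Finset.sum_congr rfl fun i _ => ?_
  rw [fac_rm_eq q (ν i) (N i) (hν i) x]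

variable {T : Type} [Fintype T] [DecidableEq T] (G : MTree)

/-- **The orders of the poles.** -/
theorem tree_order (e : T → G.Cell → ℕ) (a : T → ℕ) (Z : ℂ → ℂ) (hZ : MeromorphicOn Z Set.univ)
    (h : ∀ s : ℂ, 0 < s.re → Z s = igusaZeta q (formZ (genZ G) e a) s) (s0 : ℂ) :
    meromorphicOrderAt Z s0 = ((-(Nat.card {x : G.Cell ⊕ T // 0 < G.mul e a x ∧
      pw q s0 ^ G.mul e a x = ((q ^ G.nu T x : ℕ) : ℂ)} : ℤ) : ℤ) : WithTop ℤ) := by
  have hq1 : 1 < q := (Fact.out : q.Prime).one_lt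
  have hc : (∏ x : G.Cell ⊕ T, ((q : ℂ) ^ G.nu T x - 1)) ≠ 0 := by
    refine Finset.prod_ne_zero_iff.2 fun x _ => ?_
    have h1 : 1 < q ^ G.nu T x := Nat.one_lt_pow (nu_pos G x).ne' hq1
    intro h2
    rw [sub_eq_zero] at h2
    have h3 : q ^ G.nu T x = 1 := by exact_mod_cast h2
    omega
  have h1 := mero_eq q (Rc q (G.nu T) (G.mul e a)) (Rc_ne q hq1 _ _ (nu_pos G)) _ hc Z hZ
    (fun s hs => by
      rw [h s (by simpa using hs)]
      have h2 := igusa_rat G q e a s hs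
      rw [Polynomial.eval_C] at h2
      exact h2) s0
  rw [Rc_rm_eq q _ _ (nu_pos G)] at h1
  exact h1

/-- **Every pole gives a root.** -/
theorem tree_root (e : T → G.Cell → ℕ) (a : T → ℕ) (hd : G.Down e a) (Z : ℂ → ℂ)
    (hZ : MeromorphicOn Z Set.univ)
    (h : ∀ s : ℂ, 0 < s.re → Z s = igusaZeta q (formZ (genZ G) e a) s) (s0 : ℂ)
    (hs0 : meromorphicOrderAt Z s0 < 0) (b : ℂ[X])
    (hb : Pool.Agent.H628R4.TP.IsBFunction
      (MvPolynomial.map (Int.castRingHom ℂ) (formZ (genZ G) e a)) b) :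
    b.eval (s0.re : ℂ) = 0 := by
  have hq1 : 1 < q := (Fact.out : q.Prime).one_lt
  rw [tree_order q G e a Z hZ h s0] at hs0
  have h2 : 0 < Nat.card {x : G.Cell ⊕ T // 0 < G.mul e a x ∧
      pw q s0 ^ G.mul e a x = ((q ^ G.nu T x : ℕ) : ℂ)} := by
    have h3 : (-(Nat.card {x : G.Cell ⊕ T // 0 < G.mul e a x ∧
      pw q s0 ^ G.mul e a x = ((q ^ G.nu T x : ℕ) : ℂ)} : ℤ) : ℤ) < 0 := by exact_mod_cast hs0
    omega
  obtain ⟨⟨x, hx, hxs⟩⟩ := (Nat.card_pos_iff.1 h2).1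
  have h3 := norm_of_pow q _ _ hq1 hx _ hxs
  rw [pw_norm] at h3
  rw [map_treeZ] at hb
  have h4 := roots G e a hd b (Or.inl hb) x 0 hx
  rw [h3]
  rw [Nat.cast_zero, add_zero] at h4
  push_cast
  rw [← neg_div]
  exact h4

theorem formZ_ne (e : T → G.Cell → ℕ) (a : T → ℕ) : formZ (genZ G) e a ≠ 0 := by
  intro h
  have h1 := map_treeZ G e a
  rw [h, map_zero] at h1
  exact powProd_ne a (fun t => G.prod (e t))
    (fun t => Pool.Agent.Run7.h827.HM.mixFam_ne G.gen (gen_ne G) (e t)) h1.symm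

/-- **Poles of the Poincaré series.** -/
theorem tree_poincare (e : T → G.Cell → ℕ) (a : T → ℕ) (hd : G.Down e a) (T₀ : ℂ)
    (r : ℕ) (hr : 0 < r)
    (h : Pool.Agent.W206.CU.IsPoleOfOrder
      (Pool.Agent.W206.CU.poincare q (formZ (genZ G) e a)) T₀ r) (b : ℂ[X])
    (hb : Pool.Agent.H628R4.TP.IsBFunction
      (MvPolynomial.map (Int.castRingHom ℂ) (formZ (genZ G) e a)) b) :
    b.eval ((-Real.log ‖T₀‖ / Real.log q : ℝ) : ℂ) = 0 := by
  obtain ⟨Z, s₀, hZ, hZi, hZo, hre⟩ := Pool.Agent.W425.PZ.pole_of_poincare q (formZ (genZ G) e a)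
    (null_gen (formZ_ne G e a)) hr h
  have h1 := tree_root q G e a hd Z hZ hZi s₀ hZo b hb
  rwa [hre] at h1

end Pool.Agent.Run7.h827.MP
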