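import Pool.Agent.Run7.h827.MP.Tree
import Pool.Agent.TH192.PA.Poinc

set_option autoImplicit false
set_option linter.unusedSectionVars false
set_option linter.unusedVariables false

/-! # Igusa zeta functions of forms over products of ideals -/

namespace Pool.Agent.Run7.h827.MP

open MvPolynomial Pool.Agent.TH192.PA Pool.Agent.TH192.DT Pool.Agent.W427.SMC MeasureTheory
  Pool.Agent.Run7.h827.MT Pool.Agent.Run7.h827.HM
open scoped NNReal ENNReal

attribute [local instance] msZ bsZ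

section Gen

variable {σ S T : Type} [Fintype σ] [DecidableEq σ] [Fintype S] [DecidableEq S] [Fintype T]
  [DecidableEq T] {κ : S → Type} [∀ s, Fintype (κ s)] [∀ s, DecidableEq (κ s)]

/-- The polynomial `∏ t, (∑_J y_{t, J} M_{t, J}(x)) ^ a t` with integral coefficients, where the
`M_{t, J}` are the products of `e t s` members of the family `g s`, for each `s`, and the `y_{t, J}` are
further variables. -/
noncomputable def formZ (g : (s : S) → κ s → MvPolynomial σ ℤ) (e : T → S → ℕ) (a : T → ℕ) :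
    MvPolynomial ((Σ t, ((x : Σ s, Fin (e t s)) → κ x.1)) ⊕ σ) ℤ :=
  ∏ t, (∑ J, X (Sum.inl ⟨t, J⟩) * rename Sum.inr (∏ x : Σ s, Fin (e t s), g x.1 (J x))) ^ a t

theorem map_formZ (g : (s : S) → κ s → MvPolynomial σ ℤ) (e : T → S → ℕ) (a : T → ℕ) :
    map (Int.castRingHom ℂ) (formZ g e a)
      = powProd a fun t => mixFam (fun s j => map (Int.castRingHom ℂ) (g s j)) (e t) := by
  unfold formZ powProd blockForm
  rw [map_prod]
  refine Finset.prod_congr rfl fun t _ => ?_
  rw [map_pow, map_sum]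
  congr 1
  refine Finset.sum_congr rfl fun j _ => ?_
  rw [map_mul, map_X, map_rename, map_prod]
  rfl

variable (q : ℕ) [Fact q.Prime]

/-- the maximal norm of the members of the family `g s` -/
noncomputable def nG (g : (s : S) → κ s → MvPolynomial σ ℤ) (x : σ → ℤ_[q]) (s : S) : ℝ≥0 :=
  Finset.univ.sup fun j => ‖aeval x (g s j)‖₊

theorem sup_prod {X : Type} [Fintype X] [DecidableEq X] {κ : X → Type} [∀ x, Fintype (κ x)]
    [∀ x, Nonempty (κ x)] (f : (x : X) → κ x → ℝ≥0) :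
    (Finset.univ.sup fun J : (x : X) → κ x => ∏ x, f x (J x))
      = ∏ x, Finset.univ.sup (f x) := by
  refine le_antisymm (Finset.sup_le fun J _ => Finset.prod_le_prod' fun x _ =>
    Finset.le_sup (Finset.mem_univ _)) ?_
  have h1 : ∀ x, ∃ j, Finset.univ.sup (f x) = f x j := by
    intro x
    obtain ⟨j, _, hj⟩ := Finset.exists_mem_eq_sup Finset.univ Finset.univ_nonempty (f x)
    exact ⟨j, hj⟩
  choose j hj using h1
  rw [Finset.prod_congr rfl fun x _ => hj x]
  exact Finset.le_sup (f := fun J : (x : X) → κ x => ∏ x, f x (J x)) (Finset.mem_univ j)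

theorem aeval_formZ (g : (s : S) → κ s → MvPolynomial σ ℤ) (e : T → S → ℕ) (a : T → ℕ)
    (z : (Σ t, ((x : Σ s, Fin (e t s)) → κ x.1)) ⊕ σ → ℤ_[q]) : aeval z (formZ g e a) =
      ∏ t, (∑ J, z (Sum.inl ⟨t, J⟩) *
        ∏ x : Σ s, Fin (e t s), aeval (z ∘ Sum.inr) (g x.1 (J x))) ^ a t := by
  unfold formZ
  rw [map_prod]
  refine Finset.prod_congr rfl fun t _ => ?_
  rw [map_pow, map_sum]
  congr 1
  refine Finset.sum_congr rfl fun j _ => ?_
  rw [map_mul, aeval_X, aeval_rename, map_prod]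

theorem cont_aeval {V : Type} [Fintype V] (F : MvPolynomial V ℤ) :
    Continuous fun z : V → ℤ_[q] => aeval z F := by
  have : (fun z : V → ℤ_[q] => aeval z F) =
      fun z => eval z (map (Int.castRingHom ℤ_[q]) F) := by
    funext z
    rw [aeval_def, eval_map]
    rfl
  rw [this]
  exact MvPolynomial.continuous_eval _

theorem meas_nG (g : (s : S) → κ s → MvPolynomial σ ℤ) (s : S) (τ : ℝ) :
    Measurable fun x : σ → ℤ_[q] => ((nG q g x s : ℝ≥0) : ℝ≥0∞) ^ τ := by
  refine (measurable_coe_nnreal_ennreal.comp ?_).pow_const _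
  refine Continuous.measurable ?_
  unfold nG
  exact Continuous.finset_sup_apply fun j _ => (cont_aeval q _).nnnorm

/-- **The zeta function of the form.** -/
theorem igusa_form (g : (s : S) → κ s → MvPolynomial σ ℤ) (hκ : ∀ s, Nonempty (κ s))
    (e : T → S → ℕ) (a : T → ℕ) (s : ℝ) (hs : 0 < s) :
    ∫⁻ z, tau q s (aeval z (formZ g e a)) ∂(hm q ((Σ t, ((x : Σ s, Fin (e t s)) → κ x.1)) ⊕ σ)) =
      (∫⁻ x : σ → ℤ_[q], ∏ c, ((nG q g x c : ℝ≥0) : ℝ≥0∞) ^ (s * ∑ t, (a t : ℝ) * e t c)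
        ∂(hm q σ)) * ∏ t, phi q ((a t : ℝ) * s) := by
  classical
  have hmz : Measurable fun z : (Σ t, ((x : Σ s, Fin (e t s)) → κ x.1)) ⊕ σ → ℤ_[q] =>
      tau q s (aeval z (formZ g e a)) :=
    ((tau_cont q s hs.le).comp (cont_aeval q _)).measurable
  rw [lintegral_sum q _ hmz]
  have h1 : ∀ x : σ → ℤ_[q], ∫⁻ y : (Σ t, ((x : Σ s, Fin (e t s)) → κ x.1)) → ℤ_[q],
      tau q s (aeval (Sum.elim y x) (formZ g e a))
        ∂(hm q (Σ t, ((x : Σ s, Fin (e t s)) → κ x.1))) =
      (∏ c, ((nG q g x c : ℝ≥0) : ℝ≥0∞) ^ (s * ∑ t, (a t : ℝ) * e t c)) *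
        ∏ t, phi q ((a t : ℝ) * s) := by
    intro x
    have h2 := y_int q (fun (t : T) (J : (x : Σ s, Fin (e t s)) → κ x.1) =>
      ∏ y : Σ s, Fin (e t s), aeval x (g y.1 (J y)))
      (fun t => inferInstance) (fun t => (a t : ℝ) * s) (fun t => by positivity)
    have h3 : ∫⁻ y : (Σ t, ((x : Σ s, Fin (e t s)) → κ x.1)) → ℤ_[q],
      tau q s (aeval (Sum.elim y x) (formZ g e a))
        ∂(hm q (Σ t, ((x : Σ s, Fin (e t s)) → κ x.1))) = ∏ t, (((Finset.univ.sup
          fun J : (x : Σ s, Fin (e t s)) → κ x.1 =>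
            ‖∏ y : Σ s, Fin (e t s), aeval x (g y.1 (J y))‖₊ : ℝ≥0) : ℝ≥0∞) ^ ((a t : ℝ) * s) *
              phi q ((a t : ℝ) * s)) := by
      rw [← h2]
      refine lintegral_congr fun y => ?_
      rw [aeval_formZ, tau_prod]
      refine Finset.prod_congr rfl fun t _ => ?_
      rw [tau_pow']
      rfl
    rw [h3, Finset.prod_mul_distrib]
    congr 1
    have h4 : ∀ t, (Finset.univ.sup fun J : (x : Σ s, Fin (e t s)) → κ x.1 =>
        ‖∏ y : Σ s, Fin (e t s), aeval x (g y.1 (J y))‖₊ : ℝ≥0) = ∏ c, nG q g x c ^ e t c := by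
      intro t
      have h5 := sup_prod (X := Σ s, Fin (e t s)) (κ := fun y => κ y.1)
        (fun y j => ‖aeval x (g y.1 j)‖₊)
      have h6 : (Finset.univ.sup fun J : (x : Σ s, Fin (e t s)) → κ x.1 =>
          ‖∏ y : Σ s, Fin (e t s), aeval x (g y.1 (J y))‖₊ : ℝ≥0)
          = Finset.univ.sup fun J : (x : Σ s, Fin (e t s)) → κ x.1 =>
            ∏ y : Σ s, Fin (e t s), ‖aeval x (g y.1 (J y))‖₊ := by
        refine Finset.sup_congr rfl fun J _ => ?_
        rw [nnnorm_prod]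
      rw [h6, h5, Fintype.prod_sigma]
      refine Finset.prod_congr rfl fun c _ => ?_
      change ∏ _i : Fin (e t c), nG q g x c = _
      rw [Finset.prod_const, Finset.card_univ, Fintype.card_fin]
    simp only [h4]
    have h7 : ∀ t, ((∏ c, nG q g x c ^ e t c : ℝ≥0) : ℝ≥0∞) ^ ((a t : ℝ) * s)
        = ∏ c, ((nG q g x c : ℝ≥0) : ℝ≥0∞) ^ (s * ((a t : ℝ) * e t c)) := by
      intro t
      rw [ENNReal.ofNNReal_finsetProd, ← ENNReal.prod_rpow_of_nonneg (by positivity)]
      refine Finset.prod_congr rfl fun c _ => ?_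
      rw [ENNReal.coe_pow, ← ENNReal.rpow_natCast, ← ENNReal.rpow_mul]
      congr 1
      ring
    simp only [h7]
    rw [Finset.prod_comm]
    refine Finset.prod_congr rfl fun c _ => ?_
    rw [Finset.mul_sum]
    have h8 : ∀ (y : ℝ≥0∞) (U : Finset T), ∏ t ∈ U, y ^ (s * ((a t : ℝ) * e t c))
        = y ^ (∑ t ∈ U, s * ((a t : ℝ) * e t c)) := by
      intro y U
      induction U using Finset.induction_on with
      | empty => simp
      | insert t U ht ih =>
        rw [Finset.prod_insert ht, Finset.sum_insert ht, ih,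
          ENNReal.rpow_add_of_nonneg _ _ (by positivity)
            (Finset.sum_nonneg fun _ _ => by positivity)]
    exact h8 _ _
  rw [lintegral_congr h1, lintegral_mul_const _ (Finset.measurable_prod _ fun c _ =>
    meas_nG q g c _)]

end Gen

section Tree

variable {T : Type} [Fintype T] [DecidableEq T] (G : MTree)

/-- The minor of the first `i + 1` rows of `P_v` with the columns `J`, `c = (v, i)`, with integral
coefficients. -/
noncomputable def genZ (c : G.Cell) (J : G.MI c) : MvPolynomial G.Var ℤ :=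
  (Matrix.of fun i j : Fin ((c.2 : ℕ) + 1) => G.pm (MvPolynomial.X (R := ℤ)) c.1 i
    ((show Fin ((c.2 : ℕ) + 1) ↪o Fin (G.n c.1) from J) j : ℕ)).det

theorem map_genZ (c : G.Cell) (J : G.MI c) :
    map (Int.castRingHom ℂ) (genZ G c J) = G.gen c J := by
  unfold genZ MTree.gen
  rw [RingHom.map_det]
  congr 1
  ext1 i j
  rw [RingHom.mapMatrix_apply, Matrix.map_apply, Matrix.of_apply, Matrix.of_apply, G.map_pm]
  congr 1
  funext k
  exact map_X _ _

theorem map_treeZ (e : T → G.Cell → ℕ) (a : T → ℕ) :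
    map (Int.castRingHom ℂ) (formZ (genZ G) e a) = powProd a fun t => G.prod (e t) := by
  rw [map_formZ]
  have h1 : (fun (s : G.Cell) (j : G.MI s) => map (Int.castRingHom ℂ) (genZ G s j)) = G.gen := by
    funext s j
    exact map_genZ G s j
  rw [h1]
  rfl

variable (q : ℕ) [Fact q.Prime]

theorem nG_tree (x : G.Var → ℤ_[q]) (c : G.Cell) : nG q (genZ G) x c = nc q G x c := by
  unfold nG nc DD
  have h1 : ∀ J : G.MI c, aeval x (genZ G c J) = (Matrix.of fun i j : Fin ((c.2 : ℕ) + 1) =>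
      PP q G x c.1 i ((show Fin ((c.2 : ℕ) + 1) ↪o Fin (G.n c.1) from J) j)).det := by
    intro J
    unfold genZ
    rw [AlgHom.map_det]
    congr 1
    ext1 i j
    rw [AlgHom.mapMatrix_apply, Matrix.map_apply, Matrix.of_apply, Matrix.of_apply]
    have h := G.map_pm (aeval x : MvPolynomial G.Var ℤ →ₐ[ℤ] _).toRingHom
      (MvPolynomial.X (R := ℤ)) c.1 i
      ((show Fin ((c.2 : ℕ) + 1) ↪o Fin (G.n c.1) from J) j : ℕ)
    have h2 : (fun k => (aeval x : MvPolynomial G.Var ℤ →ₐ[ℤ] _).toRingHom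
        (MvPolynomial.X k)) = x := by
      funext k
      exact aeval_X x k
    rw [h2] at h
    exact h
  simp only [h1]
  rfl

theorem NN_eq (e : T → G.Cell → ℕ) (a : T → ℕ) (s : ℝ) (c : G.Cell) :
    NN G (fun c => s * ∑ t, (a t : ℝ) * e t c) c = (G.mul e a (Sum.inl c) : ℝ) * s := by
  classical
  unfold NN
  change _ = ((∑ t, a t * ∑ c', e t c' * G.le01 c c' : ℕ) : ℝ) * s
  push_cast
  simp only [Finset.mul_sum, Finset.sum_mul]
  rw [Finset.sum_comm]
  refine Finset.sum_congr rfl fun c' _ => ?_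
  by_cases h : G.Le c c'
  · rw [if_pos h]
    refine Finset.sum_congr rfl fun t _ => ?_
    have h1 : G.le01 c c' = 1 := by
      unfold MTree.le01
      exact if_pos h
    rw [h1]
    push_cast
    ring
  · rw [if_neg h]
    symm
    refine Finset.sum_eq_zero fun t _ => ?_
    have h1 : G.le01 c c' = 0 := by
      unfold MTree.le01
      exact if_neg h
    rw [h1]
    push_cast
    ring

/-- **The formula for the zeta function.** -/
theorem igusa_tree (e : T → G.Cell → ℕ) (a : T → ℕ) (s : ℝ) (hs : 0 < s) :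
    (∏ x : G.Cell ⊕ T, (((q : ℝ) ^ G.nu T x) - ((q : ℝ) ^ (-s)) ^ G.mul e a x)) *
      (∫⁻ z, tau q s (aeval z (formZ (genZ G) e a)) ∂(hm q _)).toReal
      = ∏ x : G.Cell ⊕ T, ((q : ℝ) ^ G.nu T x - 1) := by
  have hq0 : (0 : ℝ) < q := by exact_mod_cast (Fact.out : q.Prime).pos
  rw [igusa_form q (genZ G) (fun c => ⟨J0 G c⟩) e a s hs]
  have h1 : ∀ x : G.Var → ℤ_[q], ∏ c, ((nG q (genZ G) x c : ℝ≥0) : ℝ≥0∞) ^
      (s * ∑ t, (a t : ℝ) * e t c)
      = ∏ c, ((nc q G x c : ℝ≥0) : ℝ≥0∞) ^ ((fun c => s * ∑ t, (a t : ℝ) * e t c) c) := by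
    intro x
    refine Finset.prod_congr rfl fun c _ => ?_
    rw [nG_tree]
  simp only [h1]
  rw [int_tree q G (fun c => s * ∑ t, (a t : ℝ) * e t c) (fun c => by positivity),
    ENNReal.toReal_mul, ENNReal.toReal_prod, ENNReal.toReal_prod, Fintype.prod_sum_type,
    Fintype.prod_sum_type, mul_mul_mul_comm, ← Finset.prod_mul_distrib,
    ← Finset.prod_mul_distrib]
  have hpow : ∀ N : ℕ, ((q : ℝ) ^ (-s)) ^ N = (q : ℝ) ^ (-((N : ℝ) * s)) := by
    intro N
    rw [← Real.rpow_natCast, ← Real.rpow_mul hq0.le]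
    congr 1
    ring
  congr 1
  · refine Finset.prod_congr rfl fun c _ => ?_
    rw [NN_eq]
    have h2 : G.nu T (Sum.inl c) = G.n c.1 - c.2 := by
      change G.n c.1 - 1 - c.2 + 1 = _
      have := c.2.2
      have := G.le c.1
      omega
    rw [h2, hpow]
    exact phN_eq q _ _ (by positivity)
  · refine Finset.prod_congr rfl fun t _ => ?_
    change ((q : ℝ) ^ 1 - ((q : ℝ) ^ (-s)) ^ a t) * _ = (q : ℝ) ^ 1 - 1
    rw [hpow, pow_one]
    exact phi_eq q _ (by positivity)

open Polynomial in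
/-- **Rationality with the denominator of the resolution.** -/
theorem igusa_rat (e : T → G.Cell → ℕ) (a : T → ℕ) (s : ℝ) (hs : 0 < s) :
    (Rc q (G.nu T) (G.mul e a)).eval (pw q s) * igusaZeta q (formZ (genZ G) e a) s
      = (Polynomial.C (∏ x : G.Cell ⊕ T, ((q : ℂ) ^ G.nu T x - 1))).eval (pw q s) := by
  have h1 := congrArg (fun r : ℝ => (r : ℂ)) (igusa_tree G q e a s hs)
  rw [hm_igusa, pw_real, Polynomial.eval_C]
  have h2 : (Rc q (G.nu T) (G.mul e a)).eval ((tr' q s : ℝ) : ℂ)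
      = ((∏ x : G.Cell ⊕ T, (((q : ℝ) ^ G.nu T x) - ((q : ℝ) ^ (-s)) ^ G.mul e a x) : ℝ) : ℂ) := by
    unfold Rc
    rw [Polynomial.eval_prod]
    push_cast
    refine Finset.prod_congr rfl fun x _ => ?_
    rw [Polynomial.eval_sub, Polynomial.eval_C, Polynomial.eval_pow, Polynomial.eval_X]
    push_cast
    rfl
  rw [h2, ← Complex.ofReal_mul]
  refine h1.trans ?_
  push_cast
  rfl

end Tree

end Pool.Agent.Run7.h827.MP
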