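import Pool.Agent.Run7.h827.MP.Tri
import Pool.Agent.TH192.PA.YInt

set_option autoImplicit false
set_option linter.unusedSectionVars false
set_option linter.unusedVariables false

/-! # The integral of the norms of the minors of a `p`-adic matrix -/

namespace Pool.Agent.Run7.h827.MP

open Matrix Pool.Agent.TH192.PA Pool.Agent.W427.SMC MeasureTheory
open scoped NNReal ENNReal

attribute [local instance] msZ bsZ

variable (q : ℕ) [Fact q.Prime]

/-- Integration over a block of variables. -/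
theorem lintegral_block {ι : Type} [Fintype ι] [DecidableEq ι] (s : Finset ι)
    (f : (ι → ℤ_[q]) → ℝ≥0∞) (hf : Measurable f) (g : (ι → ℤ_[q]) → ℝ≥0∞) (hg : Measurable g)
    (h : ∀ x, ∫⁻ y : (i : s) → ℤ_[q], f (Function.updateFinset x s y) ∂(hm q s) = g x) :
    ∫⁻ x, f x ∂(hm q ι) = ∫⁻ x, g x ∂(hm q ι) := by
  have h1 : (∫⋯∫⁻_s, f ∂(fun _ => mu q)) = g := by
    funext x
    rw [lmarginal]
    exact h x
  have h2 : (∫⋯∫⁻_s, g ∂(fun _ => mu q)) = g := by
    funext x
    rw [lmarginal]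
    have h3 : ∀ y : (i : s) → ℤ_[q], g (Function.updateFinset x s y) = g x := by
      intro y
      rw [← h, ← h]
      refine lintegral_congr fun z => ?_
      congr 1
      funext i
      simp only [Function.updateFinset]
      split_ifs <;> rfl
    simp only [h3, lintegral_const, measure_univ, mul_one]
  have h4 : ∀ x0 : ι → ℤ_[q], ∀ F : (ι → ℤ_[q]) → ℝ≥0∞, Measurable F →
      ∫⁻ x, F x ∂(hm q ι) = (∫⋯∫⁻_sᶜ, (∫⋯∫⁻_s, F ∂(fun _ => mu q)) ∂(fun _ => mu q)) x0 := by
    intro x0 F hF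
    have h5 : (sᶜ ∪ s : Finset ι) = Finset.univ := by
      rw [Finset.union_comm, Finset.union_compl]
    rw [lintegral_eq_lmarginal_univ x0, ← lmarginal_union _ _ hF (disjoint_compl_left), h5]
  rw [h4 0 f hf, h4 0 g hg, h1, h2]

/-- the integral of a power of the norm over `ℤ_q ^ ν` -/
noncomputable def phN (ν : ℕ) (σ : ℝ) : ℝ≥0∞ :=
  ∫⁻ u : Fin ν → ℤ_[q], ((Finset.univ.sup fun j => ‖u j‖₊ : ℝ≥0) : ℝ≥0∞) ^ σ ∂(hm q (Fin ν))

theorem meas_sup {κ : Type} [Fintype κ] (σ : ℝ) :
    Measurable fun u : κ → ℤ_[q] => ((Finset.univ.sup fun j => ‖u j‖₊ : ℝ≥0) : ℝ≥0∞) ^ σ := by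
  refine (measurable_coe_nnreal_ennreal.comp ?_).pow_const _
  refine Continuous.measurable ?_
  refine Continuous.finset_sup_apply fun j _ => ?_
  exact (continuous_apply j).nnnorm

theorem phN_le (ν : ℕ) (σ : ℝ) (hσ : 0 ≤ σ) : phN q ν σ ≤ 1 := by
  unfold phN
  calc _ ≤ ∫⁻ u : Fin ν → ℤ_[q], 1 ∂(hm q (Fin ν)) := by
        refine lintegral_mono fun u => ?_
        refine ENNReal.rpow_le_one ?_ hσ
        rw [← ENNReal.coe_one, ENNReal.coe_le_coe]
        exact Finset.sup_le fun j _ => PadicInt.norm_le_one _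
    _ = 1 := by rw [lintegral_one, measure_univ]

/-- the value of the integral -/
theorem phN_eq (ν : ℕ) (σ : ℝ) (hσ : 0 ≤ σ) :
    ((q : ℝ) ^ ν - (q : ℝ) ^ (-σ)) * (phN q ν σ).toReal = (q : ℝ) ^ ν - 1 := by
  classical
  have hq0 : (0 : ℝ) < q := by exact_mod_cast (Fact.out : q.Prime).pos
  have hqE : (q : ℝ≥0∞) ≠ 0 := by exact_mod_cast (Fact.out : q.Prime).ne_zero
  have hp : NeZero q := ⟨(Fact.out : q.Prime).ne_zero⟩
  have h0 : phN q ν σ = ((q : ℝ≥0∞)⁻¹) ^ ν * (((q ^ ν - 1 : ℕ) : ℝ≥0∞) +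
      ENNReal.ofReal ((q : ℝ) ^ (-σ)) * phN q ν σ) := by
    have h1 := lintegral_smV q (fun u : Fin ν → ℤ_[q] =>
      ((Finset.univ.sup fun j => ‖u j‖₊ : ℝ≥0) : ℝ≥0∞) ^ σ) (meas_sup q σ)
    have h1' : phN q ν σ = smV q (fun u : Fin ν → ℤ_[q] =>
      ((Finset.univ.sup fun j => ‖u j‖₊ : ℝ≥0) : ℝ≥0∞) ^ σ) := h1
    conv_lhs => rw [h1', smV, Fintype.card_fin, ← Finset.mul_sum]
    congr 1
    rw [← Finset.add_sum_erase _ _ (Finset.mem_univ (0 : Fin ν → ZMod q)), add_comm]
    congr 1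
    · rw [Finset.sum_congr rfl (g := fun _ => 1), Finset.sum_const, nsmul_eq_mul, mul_one,
        Finset.card_erase_of_mem (Finset.mem_univ _), Finset.card_univ, Fintype.card_pi,
        Finset.prod_const, ZMod.card, Finset.card_univ, Fintype.card_fin]
      intro w hw
      have hw0 : w ≠ 0 := (Finset.mem_erase.1 hw).1
      obtain ⟨j, hj⟩ : ∃ j, w j ≠ 0 := by
        by_contra hcon
        push Not at hcon
        exact hw0 (funext hcon)
      have h2 : ∀ z : Fin ν → ℤ_[q], (Finset.univ.sup fun i =>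
          ‖((w i).val : ℤ_[q]) + (q : ℤ_[q]) * z i‖₊ : ℝ≥0) = 1 := by
        intro z
        refine le_antisymm (Finset.sup_le fun i _ => PadicInt.norm_le_one _) ?_
        refine le_trans (le_of_eq ?_) (Finset.le_sup (f := fun i =>
          ‖((w i).val : ℤ_[q]) + (q : ℤ_[q]) * z i‖₊) (Finset.mem_univ j))
        have h3 : IsUnit (((w j).val : ℤ_[q]) + (q : ℤ_[q]) * z j) := by
          by_contra hnu
          have h4 : ((w j).val : ℤ_[q]) + (q : ℤ_[q]) * z j ∈
              IsLocalRing.maximalIdeal ℤ_[q] := (IsLocalRing.mem_maximalIdeal _).2 hnu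
          rw [← PadicInt.ker_toZMod, RingHom.mem_ker, map_add, map_mul, map_natCast,
            map_natCast, ZMod.natCast_self, zero_mul, add_zero, ZMod.natCast_zmod_val] at h4
          exact hj h4
        have h5 := PadicInt.isUnit_iff.1 h3
        exact (NNReal.coe_injective (by rw [coe_nnnorm, h5]; rfl)).symm
      simp only [h2, ENNReal.coe_one, ENNReal.one_rpow, lintegral_one, measure_univ]
    · have h2 : ∀ z : Fin ν → ℤ_[q], (Finset.univ.sup fun i =>
          ‖(((0 : Fin ν → ZMod q) i).val : ℤ_[q]) + (q : ℤ_[q]) * z i‖₊ : ℝ≥0) =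
          ‖(q : ℤ_[q])‖₊ * Finset.univ.sup fun i => ‖z i‖₊ := by
        intro z
        rw [NNReal.mul_finset_sup]
        refine Finset.sup_congr rfl fun i _ => ?_
        rw [Pi.zero_apply, ZMod.val_zero, Nat.cast_zero, zero_add, nnnorm_mul]
      have h3 : ∀ z : Fin ν → ℤ_[q], (((Finset.univ.sup fun i =>
          ‖(((0 : Fin ν → ZMod q) i).val : ℤ_[q]) + (q : ℤ_[q]) * z i‖₊ : ℝ≥0)) : ℝ≥0∞) ^ σ =
          ENNReal.ofReal ((q : ℝ) ^ (-σ)) *
            ((Finset.univ.sup fun i => ‖z i‖₊ : ℝ≥0) : ℝ≥0∞) ^ σ := by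
        intro z
        rw [h2, ENNReal.coe_mul, ENNReal.mul_rpow_of_nonneg _ _ hσ]
        congr 1
        have h4 : ((‖(q : ℤ_[q])‖₊ : ℝ≥0) : ℝ≥0∞) = ENNReal.ofReal ((q : ℝ)⁻¹) := by
          rw [ENNReal.ofReal]
          congr 1
          apply NNReal.coe_injective
          rw [Real.coe_toNNReal _ (inv_nonneg.2 hq0.le), coe_nnnorm, PadicInt.norm_p]
        rw [h4, ENNReal.ofReal_rpow_of_nonneg (inv_nonneg.2 hq0.le) hσ,
          Real.inv_rpow hq0.le, Real.rpow_neg hq0.le]
      simp only [h3]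
      rw [lintegral_const_mul _ (meas_sup q σ)]
      rfl
  have hfin : phN q ν σ ≠ ⊤ := ne_top_of_le_ne_top ENNReal.one_ne_top (phN_le q ν σ hσ)
  have h1 := congrArg ENNReal.toReal h0
  rw [ENNReal.toReal_mul, ENNReal.toReal_pow, ENNReal.toReal_inv, ENNReal.toReal_natCast,
    ENNReal.toReal_add (ENNReal.natCast_ne_top _) (ENNReal.mul_ne_top ENNReal.ofReal_ne_top hfin),
    ENNReal.toReal_natCast, ENNReal.toReal_mul, ENNReal.toReal_ofReal
      (Real.rpow_nonneg hq0.le _)] at h1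
  have h2 : ((q ^ ν - 1 : ℕ) : ℝ) = (q : ℝ) ^ ν - 1 := by
    rw [Nat.cast_sub (Nat.one_le_pow _ _ (Fact.out : q.Prime).pos)]
    push_cast
    ring
  rw [h2, inv_pow] at h1
  have h3 : (q : ℝ) ^ ν ≠ 0 := pow_ne_zero _ hq0.ne'
  field_simp at h1
  linarith

/-- the integral over one row -/
theorem int_row {ι : Type} [Fintype ι] {n : ℕ} (r : Fin n ≃ ι) (k : ℕ) (hk : k ≤ n)
    (V W : Matrix (Fin n) (Fin n) ℤ_[q]) (h : V * W = 1) (σ : ℝ) :
    ∫⁻ y : ι → ℤ_[q], (((Finset.univ.filter fun j : Fin n => k ≤ (j : ℕ)).sup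
      fun j => ‖((fun l => y (r l)) ᵥ* W) j‖₊ : ℝ≥0) : ℝ≥0∞) ^ σ ∂(hm q ι) = phN q (n - k) σ := by
  set Φ : (ι → ℤ_[q]) → (Fin (n - k) → ℤ_[q]) := fun y j =>
    ∑ l, y (r l) * W l ⟨k + j, by have := j.2; omega⟩ with hΦ
  set emb : (Fin (n - k) → ℤ_[q]) → (Fin n → ℤ_[q]) := fun t j =>
    if hj : k ≤ (j : ℕ) then t ⟨j - k, by have := j.2; omega⟩ else 0 with hemb
  have hmeas : Measurable Φ := by
    refine Continuous.measurable ?_
    rw [hΦ]
    fun_prop
  have heq : ∀ z y, Φ ((fun i => (emb y ᵥ* V) (r.symm i)) + z) = y + Φ z := by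
    intro z y
    funext j
    have hj := j.2
    have h1 : ∑ l, (emb y ᵥ* V) l * W l ⟨k + j, by omega⟩ = y j := by
      have h2 : ((emb y ᵥ* V) ᵥ* W) ⟨k + j, by omega⟩ = emb y ⟨k + j, by omega⟩ := by
        rw [Matrix.vecMul_vecMul, h, Matrix.vecMul_one]
      rw [Matrix.vecMul, dotProduct] at h2
      rw [h2, hemb]
      change (if hj : k ≤ k + (j : ℕ) then y ⟨k + (j : ℕ) - k, _⟩ else 0) = y j
      rw [dif_pos (Nat.le_add_right _ _)]
      congr 1
      exact Fin.ext (by simp)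
    rw [hΦ]
    simp only [Pi.add_apply, Equiv.symm_apply_apply, add_mul, Finset.sum_add_distrib]
    rw [h1]
  have h1 := lintegral_equivariant q Φ (fun y i => (emb y ᵥ* V) (r.symm i)) hmeas heq
    (fun u => ((Finset.univ.sup fun j => ‖u j‖₊ : ℝ≥0) : ℝ≥0∞) ^ σ) (meas_sup q σ)
  rw [phN, ← h1]
  refine lintegral_congr fun y => ?_
  congr 2
  refine le_antisymm (Finset.sup_le fun j hj => ?_) (Finset.sup_le fun j _ => ?_)
  · have hj1 := (Finset.mem_filter.1 hj).2
    have hj2 := j.2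
    refine le_trans (le_of_eq ?_) (Finset.le_sup (f := fun j => ‖Φ y j‖₊)
      (Finset.mem_univ (⟨j - k, by omega⟩ : Fin (n - k))))
    have h3 : (⟨k + (j - k : ℕ), by omega⟩ : Fin n) = j := Fin.ext (by
      change k + ((j : ℕ) - k) = j
      omega)
    rw [hΦ]
    change _ = ‖∑ l, y (r l) * W l ⟨k + ((j : ℕ) - k), _⟩‖₊
    rw [h3]
    rfl
  · have hj2 := j.2
    exact Finset.le_sup (f := fun j => ‖((fun l => y (r l)) ᵥ* W) j‖₊)
      (b := (⟨k + j, by omega⟩ : Fin n)) (Finset.mem_filter.2 ⟨Finset.mem_univ _,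
        Nat.le_add_right _ _⟩)

theorem meas_row {ι : Type} [Fintype ι] {n : ℕ} (r : Fin n → ι) (k : ℕ)
    (W : Matrix (Fin n) (Fin n) ℤ_[q]) (σ : ℝ) :
    Measurable fun y : ι → ℤ_[q] => (((Finset.univ.filter fun j : Fin n => k ≤ (j : ℕ)).sup
      fun j => ‖((fun l => y (r l)) ᵥ* W) j‖₊ : ℝ≥0) : ℝ≥0∞) ^ σ := by
  refine (measurable_coe_nnreal_ennreal.comp ?_).pow_const _
  refine Continuous.measurable ?_
  refine Continuous.finset_sup_apply fun j _ => ?_
  refine Continuous.nnnorm ?_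
  unfold Matrix.vecMul dotProduct
  fun_prop

/-- the rows of a matrix -/
noncomputable def rowsOf {m n : ℕ} (Y : Fin m × Fin n → ℤ_[q]) (i : ℕ) (j : Fin n) : ℤ_[q] :=
  if h : i < m then Y (⟨i, h⟩, j) else 0

theorem DD_congr {n k : ℕ} {Y Z : ℕ → Fin n → ℤ_[q]} (h : ∀ i, i < k → Y i = Z i) :
    DD k Y = DD k Z := by
  unfold DD
  refine Finset.sup_congr rfl fun c _ => ?_
  have h1 : (Matrix.of fun i j : Fin k => Y i (c j)) = Matrix.of fun i j : Fin k => Z i (c j) := by
    ext1 i j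
    rw [Matrix.of_apply, Matrix.of_apply, h i i.2]
  rw [h1]

theorem DD_zero {n : ℕ} (Y : ℕ → Fin n → ℤ_[q]) : DD 0 Y = 1 := by
  rw [DL 0 (Nat.zero_le _) Y 1 1 (one_mul 1) fun i hi => absurd hi (Nat.not_lt_zero _)]
  simp

theorem meas_DD {τ : Type} [Fintype τ] {n : ℕ} (k : ℕ) (Y : (τ → ℤ_[q]) → ℕ → Fin n → ℤ_[q])
    (hY : ∀ i j, Continuous fun x => Y x i j) (σ : ℝ) :
    Measurable fun x => ((DD k (Y x) : ℝ≥0) : ℝ≥0∞) ^ σ := by
  refine (measurable_coe_nnreal_ennreal.comp ?_).pow_const _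
  refine Continuous.measurable ?_
  unfold DD
  refine Continuous.finset_sup_apply fun c _ => ?_
  refine (Continuous.matrix_det ?_).nnnorm
  refine continuous_matrix fun i j => ?_
  exact hY _ _

theorem cont_rowsOf {m n : ℕ} (i : ℕ) (j : Fin n) :
    Continuous fun x : Fin m × Fin n → ℤ_[q] => rowsOf q x i j := by
  unfold rowsOf
  split_ifs
  · exact continuous_apply _
  · exact continuous_const

/-- **The integral of the norms of the minors of the first rows of a matrix.** -/
theorem int_DD {m n : ℕ} (hmn : m ≤ n) (k : ℕ) (hk : k ≤ m) (a : ℕ → ℝ) (ha : ∀ i, 0 ≤ a i) :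
    ∫⁻ Y : Fin m × Fin n → ℤ_[q], ∏ i ∈ Finset.range k,
      ((DD (i + 1) (rowsOf q Y) : ℝ≥0) : ℝ≥0∞) ^ a i ∂(hm q (Fin m × Fin n))
      = ∏ i ∈ Finset.range k, phN q (n - i) (∑ j ∈ Finset.Ico i k, a j) := by
  classical
  induction k generalizing a with
  | zero => simp
  | succ k ih =>
    have hkm : k < m := hk
    set kk : Fin m := ⟨k, hkm⟩ with hkk
    set s : Finset (Fin m × Fin n) := Finset.univ.filter fun p => p.1 = kk with hs
    have hmem : ∀ j : Fin n, (kk, j) ∈ s := fun j => Finset.mem_filter.2 ⟨Finset.mem_univ _, rfl⟩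
    let r : Fin n ≃ s :=
      { toFun := fun j => ⟨(kk, j), hmem j⟩
        invFun := fun p => p.1.2
        left_inv := fun j => rfl
        right_inv := fun p => by
          have h1 := (Finset.mem_filter.1 p.2).2
          exact Subtype.ext (Prod.ext h1.symm rfl) }
    have hrow : ∀ (x : Fin m × Fin n → ℤ_[q]) (y : s → ℤ_[q]) (i : ℕ), i < k →
        rowsOf q (Function.updateFinset x s y) i = rowsOf q x i := by
      intro x y i hi
      funext j
      unfold rowsOf
      rw [dif_pos (hi.trans hkm), dif_pos (hi.trans hkm), Function.updateFinset, dif_neg]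
      intro h1
      have h2 := congrArg Fin.val (Finset.mem_filter.1 h1).2
      change i = k at h2
      omega
    have hrowk : ∀ (x : Fin m × Fin n → ℤ_[q]) (y : s → ℤ_[q]),
        rowsOf q (Function.updateFinset x s y) k = fun l => y (r l) := by
      intro x y
      funext j
      unfold rowsOf
      rw [dif_pos hkm, Function.updateFinset, dif_pos (hmem j)]
      rfl
    have hstep := lintegral_block q s
      (fun Y => ∏ i ∈ Finset.range (k + 1), ((DD (i + 1) (rowsOf q Y) : ℝ≥0) : ℝ≥0∞) ^ a i)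
      (Finset.measurable_prod _ fun i _ => meas_DD q (i + 1) _ (fun i j => cont_rowsOf q i j) _)
      (fun Y => (∏ i ∈ Finset.range k, ((DD (i + 1) (rowsOf q Y) : ℝ≥0) : ℝ≥0∞) ^ a i) *
        (((DD k (rowsOf q Y) : ℝ≥0) : ℝ≥0∞) ^ a k * phN q (n - k) (a k)))
      ((Finset.measurable_prod _ fun i _ =>
        meas_DD q (i + 1) _ (fun i j => cont_rowsOf q i j) _).mul
          ((meas_DD q k _ (fun i j => cont_rowsOf q i j) _).mul_const _)) ?_
    · rw [hstep]
      rcases Nat.eq_zero_or_pos k with h0 | h0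
      · subst h0
        simp [DD_zero]
      · obtain ⟨k', rfl⟩ := Nat.exists_eq_succ_of_ne_zero h0.ne'
        set a' : ℕ → ℝ := fun i => if i = k' then a k' + a (k' + 1) else a i with ha'
        have h1 := ih (by omega) a' (fun i => by
          rw [ha']
          change 0 ≤ if i = k' then a k' + a (k' + 1) else a i
          split_ifs
          · exact add_nonneg (ha _) (ha _)
          · exact ha i)
        have h2 : ∀ Y : Fin m × Fin n → ℤ_[q],
            (∏ i ∈ Finset.range (k' + 1), ((DD (i + 1) (rowsOf q Y) : ℝ≥0) : ℝ≥0∞) ^ a i) *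
            (((DD (k' + 1) (rowsOf q Y) : ℝ≥0) : ℝ≥0∞) ^ a (k' + 1) *
              phN q (n - (k' + 1)) (a (k' + 1)))
            = (∏ i ∈ Finset.range (k' + 1), ((DD (i + 1) (rowsOf q Y) : ℝ≥0) : ℝ≥0∞) ^ a' i) *
              phN q (n - (k' + 1)) (a (k' + 1)) := by
          intro Y
          rw [← mul_assoc, Finset.prod_range_succ, Finset.prod_range_succ]
          congr 1
          have h3 : ∀ i ∈ Finset.range k', ((DD (i + 1) (rowsOf q Y) : ℝ≥0) : ℝ≥0∞) ^ a' i
              = ((DD (i + 1) (rowsOf q Y) : ℝ≥0) : ℝ≥0∞) ^ a i := by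
            intro i hi
            rw [ha']
            change _ ^ (if i = k' then a k' + a (k' + 1) else a i) = _
            rw [if_neg (Finset.mem_range.1 hi).ne]
          rw [Finset.prod_congr rfl h3, mul_assoc]
          congr 1
          rw [ha']
          change _ = _ ^ (if k' = k' then a k' + a (k' + 1) else a k')
          rw [if_pos rfl, ENNReal.rpow_add_of_nonneg _ _ (ha _) (ha _)]
        simp only [h2]
        rw [lintegral_mul_const _ (Finset.measurable_prod _ fun i _ =>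
          meas_DD q (i + 1) _ (fun i j => cont_rowsOf q i j) _), h1,
          Finset.prod_range_succ _ (k' + 1)]
        congr 1
        · refine Finset.prod_congr rfl fun i hi => ?_
          have hi' : i ≤ k' := Nat.lt_succ_iff.1 (Finset.mem_range.1 hi)
          congr 1
          rw [Finset.sum_Ico_succ_top (by omega : i ≤ k'),
            Finset.sum_Ico_succ_top (by omega : i ≤ k' + 1),
            Finset.sum_Ico_succ_top (by omega : i ≤ k'), add_assoc]
          congr 1
          · refine Finset.sum_congr rfl fun j hj => ?_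
            have hj' := (Finset.mem_Ico.1 hj).2
            rw [ha']
            change (if j = k' then _ else a j) = a j
            rw [if_neg hj'.ne]
          · rw [ha']
            change (if k' = k' then _ else a k') = _
            rw [if_pos rfl]
        · rw [Nat.Ico_succ_singleton, Finset.sum_singleton]
    · intro x
      obtain ⟨V, W, hVW, hL⟩ := exists_tri (rowsOf q x) k (by omega)
      have h1 : ∀ y : s → ℤ_[q], ∏ i ∈ Finset.range (k + 1),
          ((DD (i + 1) (rowsOf q (Function.updateFinset x s y)) : ℝ≥0) : ℝ≥0∞) ^ a i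
          = (∏ i ∈ Finset.range k, ((DD (i + 1) (rowsOf q x) : ℝ≥0) : ℝ≥0∞) ^ a i) *
            (((DD k (rowsOf q x) : ℝ≥0) : ℝ≥0∞) ^ a k *
              (((Finset.univ.filter fun j : Fin n => k ≤ (j : ℕ)).sup
                fun j => ‖((fun l => y (r l)) ᵥ* W) j‖₊ : ℝ≥0) : ℝ≥0∞) ^ a k) := by
        intro y
        rw [Finset.prod_range_succ]
        congr 1
        · refine Finset.prod_congr rfl fun i hi => ?_
          have hi' := Finset.mem_range.1 hi
          rw [DD_congr q fun l hl => hrow x y l (by omega)]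
        · rw [DD_succ k (by omega) (rowsOf q (Function.updateFinset x s y)) V W hVW
            (fun i hi j hij => by rw [hrow x y i hi]; exact hL i hi j hij),
            DD_congr q fun l hl => hrow x y l hl, hrowk, ENNReal.coe_mul,
            ENNReal.mul_rpow_of_nonneg _ _ (ha k)]
      simp only [h1]
      rw [lintegral_const_mul _ ((meas_row q r k W (a k)).const_mul _),
        lintegral_const_mul _ (meas_row q r k W (a k)), int_row q r k (by omega) V W hVW]

end Pool.Agent.Run7.h827.MP
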