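import Pool.Agent.Run7.h827.MP.Fin
import Pool.Agent.W427.SMC.Poin4

set_option autoImplicit false
set_option linter.unusedSectionVars false
set_option linter.unusedVariables false

/-! # Zeta functions which are products: the formula in the half plane, the Poincaré series, the
poles and their orders -/

namespace Pool.Agent.Run7.h827.MP

open MeasureTheory Pool.Agent.W427.SMC Pool.Agent.TH192.PA Pool.Agent.TH192.DT Polynomial Filter
  Topology
open Pool.Agent.W206.CU (gen gen_igusa norm_T_lt T_ne_zero IsPoleOfOrder)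
open Pool.Agent.W425.PZ (gen_eval)

attribute [local instance] msZ bsZ

section Abs

variable {W ι : Type} [Fintype W] [Fintype ι] (q : ℕ) [Fact q.Prime] (f : MvPolynomial W ℤ)
  (ν N : ι → ℕ)

/-- The zeta function of `f` is the product of the `(q ^ ν_i - 1) / (q ^ ν_i - q ^ (-N_i s))`, for
real `s > 0`. -/
def ProdZeta : Prop := ∀ s : ℝ, 0 < s → (Rc q ν N).eval (pw q s) * igusaZeta q f s
  = ∏ i, ((q : ℂ) ^ ν i - 1)

theorem kq_ne (hν : ∀ i, 0 < ν i) : (∏ i, ((q : ℂ) ^ ν i - 1)) ≠ 0 := by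
  refine Finset.prod_ne_zero_iff.2 fun i _ => ?_
  rw [sub_ne_zero]
  have h1 : 1 < q ^ ν i := Nat.one_lt_pow (hν i).ne' (Fact.out : q.Prime).one_lt
  exact_mod_cast h1.ne'

/-- The number of the `i` with `N i > 0` and `x ^ N i = q ^ ν i`. -/
noncomputable def cntP (x : ℂ) : ℕ := Nat.card {i : ι // 0 < N i ∧ x ^ N i = (q : ℂ) ^ ν i}

theorem rm_cnt (hν : ∀ i, 0 < ν i) (x : ℂ) : (Rc q ν N).rootMultiplicity x = cntP q ν N x := by
  rw [Rc_rm_eq q ν N hν x]
  unfold cntP
  simp only [Nat.cast_pow]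

theorem pw_cpow (s : ℂ) : pw q s = (q : ℂ) ^ (-s) := by
  have h0 : (q : ℂ) ≠ 0 := by exact_mod_cast (Fact.out : q.Prime).ne_zero
  rw [Complex.cpow_def_of_ne_zero h0, pw, ← Complex.natCast_log]
  congr 1
  ring

variable {q f ν N}

/-- **The exact orders of the poles.** -/
theorem abs_order (hν : ∀ i, 0 < ν i) (hf : ProdZeta q f ν N) (Z : ℂ → ℂ)
    (hZ : MeromorphicOn Z Set.univ) (h : ∀ s : ℂ, 0 < s.re → Z s = igusaZeta q f s) (s0 : ℂ) :
    meromorphicOrderAt Z s0
      = ((-(cntP q ν N ((q : ℂ) ^ (-s0)) : ℤ) : ℤ) : WithTop ℤ) := by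
  have hq1 : 1 < q := (Fact.out : q.Prime).one_lt
  rw [mero_eq q (Rc q ν N) (Rc_ne q hq1 _ _ hν) _ (kq_ne q ν hν) Z hZ (fun s hs => by
      rw [h s (by simpa using hs)]; exact hf s hs) s0, rm_cnt q ν N hν, pw_cpow]

/-- **The Poincaré series.** -/
theorem abs_poincare (hf : ProdZeta q f ν N) :
    ((Rc q ν N * (1 - X) : ℂ[X]) : PowerSeries ℂ) * poincare q f =
        ((Rc q ν N - C (∏ i, ((q : ℂ) ^ ν i - 1)) * X : ℂ[X]) : PowerSeries ℂ) := by
  set D := Rc q ν N with hDdef
  set K : ℂ := ∏ i, ((q : ℂ) ^ ν i - 1) with hK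
  have h : ∀ s : ℝ, 0 < s → D.eval (tr' q s : ℂ) *
      ((∫⁻ z, tau q s (MvPolynomial.aeval z f) ∂(Measure.pi fun _ => mu q)).toReal : ℂ) = K := by
    intro s hs
    have h1 := hf s hs
    rw [hm_igusa, pw_real] at h1
    exact h1
  rw [← sub_eq_zero]
  refine Conv.zero_of ?_
  have h4 := ((poincare_conv q f).poly_mul (D * (1 - X))).add
    ((Conv.poly (D - C K * X)).C_mul (-1))
  have h5 : ((D * (1 - X) : ℂ[X]) : PowerSeries ℂ) * poincare q f
      - ((D - C K * X : ℂ[X]) : PowerSeries ℂ) =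
      ((D * (1 - X) : ℂ[X]) : PowerSeries ℂ) * poincare q f
        + PowerSeries.C (-1) * ((D - C K * X : ℂ[X]) : PowerSeries ℂ) := by
    rw [map_neg, map_one]; ring
  rw [h5]
  refine h4.congr fun t h0 h1' => ?_
  obtain ⟨s, hs, rfl⟩ := exists_s q t h0 h1'
  have h6 := poin_val q f s hs
  have h7 := h s hs
  set Z := (∫⁻ z, tau q s (MvPolynomial.aeval z f) ∂(Measure.pi fun _ => mu q)).toReal
  have h8 : (1 - (tr' q s : ℂ)) * ∑' m : ℕ, (cN q f m : ℂ) * (tr' q s : ℂ) ^ m =
      1 - (tr' q s : ℂ) * (Z : ℂ) := by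
    have h9 := congrArg (fun x : ℝ => (x : ℂ)) h6
    simp only [Complex.ofReal_mul, Complex.ofReal_sub, Complex.ofReal_one,
      Complex.ofReal_tsum, Complex.ofReal_pow] at h9
    exact h9
  simp only [eval_sub, eval_mul, eval_X, eval_one, eval_C]
  linear_combination D.eval (tr' q s : ℂ) * h8 - (tr' q s : ℂ) * h7

theorem rc_eval_one : (Rc q ν N).eval 1 = ∏ i, ((q : ℂ) ^ ν i - 1) := by
  unfold Rc
  rw [eval_prod]
  refine Finset.prod_congr rfl fun i _ => ?_
  rw [eval_sub, eval_C, eval_pow, eval_X, one_pow, Nat.cast_pow]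

/-- **The poles of the Poincaré series and their orders.** -/
theorem abs_poles (hν : ∀ i, 0 < ν i) (hf : ProdZeta q f ν N) (T₀ : ℂ) (r : ℕ) (hr : 0 < r) :
    IsPoleOfOrder (poincare q f) T₀ r ↔ cntP q ν N T₀ = r := by
  have hq1 : 1 < q := (Fact.out : q.Prime).one_lt
  have hK := kq_ne q ν hν
  set D := Rc q ν N with hDdef
  set K : ℂ := ∏ i, ((q : ℂ) ^ ν i - 1) with hKdef
  have hD0 : D ≠ 0 := Rc_ne q hq1 _ _ hν
  have hrm : D.rootMultiplicity T₀ = cntP q ν N T₀ := rm_cnt q ν N hν T₀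
  have hform := abs_poincare hf
  rw [← hDdef, ← hKdef] at hform
  have hone : D.eval 1 = K := rc_eval_one
  have hX1 : (1 - X : ℂ[X]) ≠ 0 := by
    intro h
    have := congrArg (fun P : ℂ[X] => P.eval 0) h
    simp at this
  -- a root of `D` is neither `0` nor `1`
  have hroot : D.eval T₀ = 0 → T₀ ≠ 0 ∧ T₀ ≠ 1 := by
    intro h
    constructor
    · rintro rfl
      have h1 : D.rootMultiplicity 0 ≠ 0 := by
        rw [Ne, rootMultiplicity_eq_zero_iff]
        intro h2
        exact hD0 (h2 h)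
      rw [hrm] at h1
      apply h1
      unfold cntP
      rw [Nat.card_eq_zero]
      left
      refine ⟨fun i => ?_⟩
      have h2 := i.2.2
      rw [zero_pow i.2.1.ne'] at h2
      have h3 : q ^ ν i.1 ≠ 0 := pow_ne_zero _ (Fact.out : q.Prime).ne_zero
      exact h3 (by exact_mod_cast h2.symm)
    · rintro rfl
      rw [hone] at h
      exact hK h
  constructor
  · rintro ⟨A, B, hA, hB, h⟩
    have h1 : (X - C T₀) ^ r * B * (D - C K * X) = A * (D * (1 - X)) := by
      have h2 : (((X - C T₀) ^ r * B * (D - C K * X) : ℂ[X]) : PowerSeries ℂ) =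
          ((A * (D * (1 - X)) : ℂ[X]) : PowerSeries ℂ) := by
        rw [Polynomial.coe_mul, Polynomial.coe_mul A, ← h, ← hform]
        ring
      exact Polynomial.coe_injective ℂ h2
    have h3 := congrArg (fun P : ℂ[X] => P.eval T₀) h1
    simp only [eval_mul, eval_pow, eval_sub, eval_X, eval_C, sub_self, zero_pow hr.ne', zero_mul,
      eval_one] at h3
    have h4 : D.eval T₀ = 0 := by
      rcases mul_eq_zero.1 h3.symm with h5 | h5
      · exact absurd h5 hA
      rcases mul_eq_zero.1 h5 with h6 | h6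
      · exact h6
      · exfalso
        have hT : T₀ = 1 := by linear_combination -h6
        subst hT
        -- cancel one factor `X - 1`
        have h7 : (X - C (1 : ℂ)) ∣ (D - C K * X) := by
          rw [dvd_iff_isRoot, IsRoot.def]
          simp [hone]
        obtain ⟨G, hG⟩ := h7
        have h8 : (X - C (1 : ℂ)) * ((X - C 1) ^ r * B * G) = (X - C 1) * (-(A * D)) := by
          rw [hG] at h1
          rw [C_1] at h1 ⊢
          linear_combination h1
        have h9 := mul_left_cancel₀ (X_sub_C_ne_zero (1 : ℂ)) h8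
        have h10 := congrArg (fun P : ℂ[X] => P.eval 1) h9
        simp only [eval_mul, eval_pow, eval_sub, eval_X, eval_C, sub_self, zero_pow hr.ne',
          zero_mul, eval_neg, hone] at h10
        exact (mul_ne_zero hA hK) (neg_eq_zero.1 h10.symm)
    obtain ⟨hT0, hT1⟩ := hroot h4
    have h5 : (D - C K * X : ℂ[X]).eval T₀ ≠ 0 := by
      simp only [eval_sub, eval_mul, eval_C, eval_X, h4, zero_sub]
      exact neg_ne_zero.2 (mul_ne_zero hK hT0)
    have h6 : (1 - X : ℂ[X]).eval T₀ ≠ 0 := by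
      simp only [eval_sub, eval_one, eval_X]
      exact sub_ne_zero.2 hT1.symm
    have hN0 : (D - C K * X : ℂ[X]) ≠ 0 := by
      intro h7
      rw [h7, eval_zero] at h5
      exact h5 rfl
    have hB0 : B ≠ 0 := by
      rintro rfl
      exact hB eval_zero
    have hA0 : A ≠ 0 := by
      rintro rfl
      exact hA eval_zero
    have hp0 : (X - C T₀) ^ r ≠ 0 := pow_ne_zero _ (X_sub_C_ne_zero T₀)
    have h7 := congrArg (rootMultiplicity T₀) h1
    rw [rootMultiplicity_mul (mul_ne_zero (mul_ne_zero hp0 hB0) hN0),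
      rootMultiplicity_mul (mul_ne_zero hp0 hB0), rootMultiplicity_X_sub_C_pow,
      rootMultiplicity_mul (mul_ne_zero hA0 (mul_ne_zero hD0 hX1)),
      rootMultiplicity_mul (mul_ne_zero hD0 hX1),
      rootMultiplicity_eq_zero (p := B) hB, rootMultiplicity_eq_zero (p := A) hA,
      rootMultiplicity_eq_zero (p := 1 - X) h6,
      rootMultiplicity_eq_zero (p := D - C K * X) h5] at h7
    rw [← hrm]
    omega
  · intro h
    have h1 : 0 < D.rootMultiplicity T₀ := by rw [hrm, h]; exact hr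
    have h4 : D.eval T₀ = 0 := (rootMultiplicity_pos hD0).1 h1
    obtain ⟨hT0, hT1⟩ := hroot h4
    obtain ⟨D1, hD1, hnd⟩ := exists_eq_pow_rootMultiplicity_mul_and_not_dvd D hD0 T₀
    rw [hrm, h] at hD1
    refine ⟨D - C K * X, D1 * (1 - X), ?_, ?_, ?_⟩
    · simp only [eval_sub, eval_mul, eval_C, eval_X, h4, zero_sub]
      exact neg_ne_zero.2 (mul_ne_zero hK hT0)
    · rw [eval_mul]
      refine mul_ne_zero (fun h5 => hnd (dvd_iff_isRoot.2 h5)) ?_
      simp only [eval_sub, eval_one, eval_X]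
      exact sub_ne_zero.2 hT1.symm
    · rw [← mul_assoc, ← hD1]
      exact hform

theorem poincare_same : Pool.Agent.W206.CU.poincare q f = poincare q f := by
  unfold Pool.Agent.W206.CU.poincare poincare solCount
  congr 1
  funext m
  rw [Nat.card_eq_fintype_card (α := W), div_eq_mul_inv, inv_pow, ← pow_mul, ← pow_mul, mul_comm m]

/-- **The zeta function.** -/
theorem abs_complex (hν : ∀ i, 0 < ν i) (hf : ProdZeta q f ν N) (s : ℂ) (hs : 0 < s.re) :
    igusaZeta q f s = ∏ i, ((q : ℂ) ^ ν i - 1) / ((q : ℂ) ^ ν i - ((q : ℂ) ^ (-s)) ^ N i) := by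
  have hT := norm_T_lt q hs
  set x : ℂ := (q : ℂ) ^ (-s) with hx
  have hx0 : x ≠ 0 := T_ne_zero q s
  have h1 := gen_igusa q f hs hT
  have h0 := abs_poincare hf
  rw [← poincare_same] at h0
  have h2 := gen_eval q f h0 hT
  simp only [eval_mul, eval_sub, eval_one, eval_X, eval_C] at h2
  have h3 : (Rc q ν N).eval x * igusaZeta q f s = ∏ i, ((q : ℂ) ^ ν i - 1) := by
    refine mul_left_cancel₀ hx0 ?_
    linear_combination (Rc q ν N).eval x * h1 - h2
  have h4 : (Rc q ν N).eval x = ∏ i, ((q : ℂ) ^ ν i - x ^ N i) := by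
    unfold Rc
    rw [eval_prod]
    refine Finset.prod_congr rfl fun i _ => ?_
    rw [eval_sub, eval_C, eval_pow, eval_X, Nat.cast_pow]
  have h5 : ∀ i, ((q : ℂ) ^ ν i - x ^ N i) ≠ 0 := by
    intro i h
    rw [sub_eq_zero] at h
    have h6 := congrArg norm h
    rw [norm_pow, norm_pow, Complex.norm_natCast] at h6
    have h7 : ‖x‖ ^ N i ≤ 1 := pow_le_one₀ (norm_nonneg _) hT.le
    have h8 : 1 < (q : ℝ) ^ ν i :=
      one_lt_pow₀ (by exact_mod_cast (Fact.out : q.Prime).one_lt) (hν i).ne'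
    linarith
  rw [Finset.prod_div_distrib, eq_div_iff (Finset.prod_ne_zero_iff.2 fun i _ => h5 i), ← h4,
    mul_comm]
  exact h3

/-- **The Poincaré series, written out.** -/
theorem abs_poincare' (hf : ProdZeta q f ν N) :
    ((((∏ i, (C ((q : ℂ) ^ ν i) - X ^ N i)) * (1 - X) : ℂ[X])) : PowerSeries ℂ) * poincare q f =
        ((((∏ i, (C ((q : ℂ) ^ ν i) - X ^ N i)) -
          C (∏ i, ((q : ℂ) ^ ν i - 1)) * X : ℂ[X])) : PowerSeries ℂ) := by
  have h := abs_poincare hf
  unfold Rc at h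
  simp only [Nat.cast_pow] at h
  exact h

end Abs

end Pool.Agent.Run7.h827.MP
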