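import Pool.Agent.Run7.h827.MP.Int
import Pool.Agent.Run7.h827.MT.Main

set_option autoImplicit false
set_option linter.unusedSectionVars false
set_option linter.unusedVariables false

/-! # The integral of the norms of the minors of products of matrices along a forest -/

namespace Pool.Agent.Run7.h827.MP

open Matrix Pool.Agent.TH192.PA Pool.Agent.W427.SMC MeasureTheory Pool.Agent.Run7.h827.MT
open scoped NNReal ENNReal

attribute [local instance] msZ bsZ

variable (q : ℕ) [Fact q.Prime]

/-- a lower triangular matrix times a matrix -/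
theorem DD_tri {R n : ℕ} (k : ℕ) (hk : k ≤ R) (L : ℕ → Fin R → ℤ_[q])
    (hL : ∀ i, i < k → ∀ j : Fin R, i < j → L i j = 0) (Y P : ℕ → Fin n → ℤ_[q])
    (hP : ∀ i, i < k → ∀ j, P i j = ∑ l : Fin R, L i l * Y l j) :
    DD k P = (∏ i : Fin k, ‖L i ⟨i, lt_of_lt_of_le i.2 hk⟩‖₊) * DD k Y := by
  unfold DD
  rw [NNReal.mul_finset_sup]
  refine Finset.sup_congr rfl fun c _ => ?_
  have h1 : (Matrix.of fun i j : Fin k => P i (c j))
      = (Matrix.of fun i l : Fin k => L i ⟨l, lt_of_lt_of_le l.2 hk⟩) *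
        Matrix.of fun i j : Fin k => Y i (c j) := by
    ext1 i j
    rw [Matrix.mul_apply, Matrix.of_apply, hP i i.2]
    symm
    refine Finset.sum_bij_ne_zero (fun (l : Fin k) _ _ => (⟨l, lt_of_lt_of_le l.2 hk⟩ : Fin R))
      ?_ ?_ ?_ ?_
    · intro l _ _
      exact Finset.mem_univ _
    · intro l _ _ l' _ _ h
      exact Fin.ext (congrArg (fun x : Fin R => (x : ℕ)) h)
    · intro l _ hl
      have h2 : ¬ (i : ℕ) < l := fun h3 => hl (by rw [hL i i.2 l h3, zero_mul])
      have hi := i.2
      exact ⟨⟨l, by omega⟩, Finset.mem_univ _, hl, rfl⟩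
    · intro l _ _
      rfl
  rw [h1, Matrix.det_mul, nnnorm_mul]
  congr 1
  rw [Matrix.det_of_isLowerTriangular, nnnorm_prod]
  · rfl
  · intro i j hij
    have hij' : i < j := hij
    exact hL i i.2 _ hij'

/-- **The integral over one matrix**, the other ones being fixed. -/
theorem int_block {ι : Type} [Fintype ι] {R n m : ℕ} (r : Fin R × Fin n ≃ ι) (hmR : m ≤ R)
    (hmn : m ≤ n) (Q : ℕ → Fin R → ℤ_[q]) (a : ℕ → ℝ) (ha : ∀ i, 0 ≤ a i) :
    ∫⁻ y : ι → ℤ_[q], ∏ i ∈ Finset.range m, ((DD (i + 1) (fun i (j : Fin n) =>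
        ∑ l : Fin R, Q i l * y (r (l, j))) : ℝ≥0) : ℝ≥0∞) ^ a i ∂(hm q ι)
      = (∏ i ∈ Finset.range m, ((DD (i + 1) Q : ℝ≥0) : ℝ≥0∞) ^ a i) *
        ∏ i ∈ Finset.range m, phN q (n - i) (∑ j ∈ Finset.Ico i m, a j) := by
  obtain ⟨V, W, hVW, hL⟩ := exists_tri Q m hmR
  have hWV : W * V = 1 := mul_eq_one_comm.1 hVW
  set Φ : (ι → ℤ_[q]) → (Fin m × Fin n → ℤ_[q]) := fun y p =>
    ∑ l : Fin R, V ⟨p.1, lt_of_lt_of_le p.1.2 hmR⟩ l * y (r (l, p.2)) with hΦ
  have hmeas : Measurable Φ := by
    refine Continuous.measurable ?_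
    rw [hΦ]
    fun_prop
  set h : (Fin m × Fin n → ℤ_[q]) → (ι → ℤ_[q]) := fun t i =>
    ∑ k : Fin m, W (r.symm i).1 ⟨k, lt_of_lt_of_le k.2 hmR⟩ * t (k, (r.symm i).2) with hh
  have heq : ∀ z y, Φ (h y + z) = y + Φ z := by
    intro z y
    funext p
    rw [hΦ]
    simp only [Pi.add_apply, mul_add, Finset.sum_add_distrib]
    congr 1
    rw [hh]
    simp only [Equiv.symm_apply_apply]
    have h1 : ∀ l : Fin R, V ⟨p.1, lt_of_lt_of_le p.1.2 hmR⟩ l *
        ∑ k : Fin m, W l ⟨k, lt_of_lt_of_le k.2 hmR⟩ * y (k, p.2)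
        = ∑ k : Fin m, V ⟨p.1, lt_of_lt_of_le p.1.2 hmR⟩ l *
          W l ⟨k, lt_of_lt_of_le k.2 hmR⟩ * y (k, p.2) := by
      intro l
      rw [Finset.mul_sum]
      exact Finset.sum_congr rfl fun k _ => (mul_assoc _ _ _).symm
    rw [Finset.sum_congr rfl fun l _ => h1 l, Finset.sum_comm]
    simp only [← Finset.sum_mul]
    have h2 : ∀ k : Fin m, ∑ l : Fin R, V ⟨p.1, lt_of_lt_of_le p.1.2 hmR⟩ l *
        W l ⟨k, lt_of_lt_of_le k.2 hmR⟩ = if p.1 = k then 1 else 0 := by
      intro k
      rw [← Matrix.mul_apply, hVW, Matrix.one_apply]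
      by_cases hk : p.1 = k
      · rw [if_pos hk, if_pos (by rw [hk])]
      · rw [if_neg hk, if_neg]
        intro h3
        exact hk (Fin.ext (congrArg (fun x : Fin R => (x : ℕ)) h3))
    simp only [h2, ite_mul, one_mul, zero_mul, Finset.sum_ite_eq, Finset.mem_univ, if_true]
  have key : ∀ (k : ℕ), k ≤ m → ∀ y : ι → ℤ_[q],
      DD k (fun i (j : Fin n) => ∑ l : Fin R, Q i l * y (r (l, j)))
        = DD k Q * DD k (rowsOf q (Φ y)) := by
    intro k hk y
    have hQ : ∀ i, Q i = (Q i ᵥ* W) ᵥ* V := by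
      intro i
      rw [Matrix.vecMul_vecMul, hWV, Matrix.vecMul_one]
    rw [DL k (hk.trans hmR) Q V W hVW fun i hi => hL i (by omega)]
    refine DD_tri q k (hk.trans hmR) (fun i => Q i ᵥ* W) (fun i hi => hL i (by omega))
      (rowsOf q (Φ y)) _ fun i hi j => ?_
    have h1 : ∑ l : Fin R, Q i l * y (r (l, j))
        = ∑ k' : Fin R, (Q i ᵥ* W) k' * ∑ l : Fin R, V k' l * y (r (l, j)) := by
      conv_lhs => rw [hQ i]
      simp only [Matrix.vecMul, dotProduct, Finset.sum_mul, Finset.mul_sum]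
      rw [Finset.sum_comm]
      simp only [mul_assoc]
    rw [h1]
    refine Finset.sum_congr rfl fun k' _ => ?_
    by_cases hk' : (k' : ℕ) < m
    · congr 1
      rw [rowsOf, dif_pos hk']
    · rw [hL i (by omega) k' (by omega), zero_mul, zero_mul]
  have h1 : ∀ y : ι → ℤ_[q], ∏ i ∈ Finset.range m, ((DD (i + 1) (fun i (j : Fin n) =>
        ∑ l : Fin R, Q i l * y (r (l, j))) : ℝ≥0) : ℝ≥0∞) ^ a i
      = (∏ i ∈ Finset.range m, ((DD (i + 1) Q : ℝ≥0) : ℝ≥0∞) ^ a i) *
        ∏ i ∈ Finset.range m, ((DD (i + 1) (rowsOf q (Φ y)) : ℝ≥0) : ℝ≥0∞) ^ a i := by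
    intro y
    rw [← Finset.prod_mul_distrib]
    refine Finset.prod_congr rfl fun i hi => ?_
    rw [key (i + 1) (Finset.mem_range.1 hi) y, ENNReal.coe_mul,
      ENNReal.mul_rpow_of_nonneg _ _ (ha i)]
  have hm1 : Measurable fun Y : Fin m × Fin n → ℤ_[q] => ∏ i ∈ Finset.range m,
      ((DD (i + 1) (rowsOf q Y) : ℝ≥0) : ℝ≥0∞) ^ a i :=
    Finset.measurable_prod _ fun i _ => meas_DD q (i + 1) _ (fun i j => cont_rowsOf q i j) _
  simp only [h1]
  have hm2 : Measurable fun y : ι → ℤ_[q] => ∏ i ∈ Finset.range m,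
      ((DD (i + 1) (rowsOf q (Φ y)) : ℝ≥0) : ℝ≥0∞) ^ a i := hm1.comp hmeas
  rw [lintegral_const_mul _ hm2]
  congr 1
  exact (lintegral_equivariant q Φ h hmeas heq _ hm1).trans (int_DD q hmn m le_rfl a ha)

variable (G : MTree)

/-- the rows of `P_v` -/
noncomputable def PP (x : G.Var → ℤ_[q]) (v : Fin G.K) : ℕ → Fin (G.n v) → ℤ_[q] :=
  fun i j => G.pm x v i j

/-- the norm of the ideal of the cell -/
noncomputable def nc (x : G.Var → ℤ_[q]) (c : G.Cell) : ℝ≥0 := DD ((c.2 : ℕ) + 1) (PP q G x c.1)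

theorem cont_ent (v : Fin G.K) (i j : ℕ) :
    Continuous fun x : G.Var → ℤ_[q] => G.ent x v i j := by
  unfold MTree.ent
  split_ifs
  · exact continuous_apply _
  · exact continuous_const

theorem cont_pm (v : Fin G.K) : ∀ i j : ℕ,
    Continuous fun x : G.Var → ℤ_[q] => G.pm x v i j := by
  induction v using WellFoundedLT.induction with
  | ind v ih =>
    intro i j
    rcases hv : G.par v with _ | u
    · have h1 : (fun x : G.Var → ℤ_[q] => G.pm x v i j) = fun x => G.ent x v i j := by
        funext x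
        rw [MTree.pm]
        split
        · rfl
        · rename_i u' hu'
          rw [hv] at hu'
          exact absurd hu' (by simp)
      rw [h1]
      exact cont_ent q G v i j
    · have h1 : (fun x : G.Var → ℤ_[q] => G.pm x v i j) = fun x =>
          ∑ k ∈ Finset.range (G.n u), G.pm x u i k * G.ent x v k j := by
        funext x
        exact G.pm_some x hv i j
      rw [h1]
      refine continuous_finsetSum _ fun k _ => ?_
      exact (ih u (G.lt v u hv) i k).mul (cont_ent q G v k j)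

theorem meas_nc (c : G.Cell) (σ : ℝ) :
    Measurable fun x : G.Var → ℤ_[q] => ((nc q G x c : ℝ≥0) : ℝ≥0∞) ^ σ :=
  meas_DD q _ _ (fun i j => cont_pm q G c.1 i j) σ

theorem DD_cast {n n' : ℕ} (h : n = n') (k : ℕ) (F : ℕ → ℕ → ℤ_[q]) :
    DD k (fun i (j : Fin n) => F i j) = DD k (fun i (j : Fin n') => F i j) := by
  subst h
  rfl

theorem DD_one {n : ℕ} (k : ℕ) (hk : k ≤ n) :
    DD k (fun i (j : Fin n) => if i = (j : ℕ) then (1 : ℤ_[q]) else 0) = 1 := by
  rw [DD_lower k hk _ fun i hi j hij => if_neg hij.ne]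
  refine Finset.prod_eq_one fun i _ => ?_
  rw [if_pos rfl, nnnorm_one]

open Classical in
/-- the accumulated exponents -/
noncomputable def NN (E : G.Cell → ℝ) (c : G.Cell) : ℝ := ∑ c', if G.Le c c' then E c' else 0

theorem NN_nonneg (E : G.Cell → ℝ) (hE : ∀ c, 0 ≤ E c) (c : G.Cell) : 0 ≤ NN G E c := by
  unfold NN
  refine Finset.sum_nonneg fun c' _ => ?_
  split_ifs
  · exact hE c'
  · exact le_rfl

theorem phN_zero (ν : ℕ) : phN q ν 0 = 1 := by
  unfold phN
  simp only [ENNReal.rpow_zero, lintegral_one, measure_univ]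

theorem row_E (E : G.Cell → ℝ) (v : Fin G.K) (hE : ∀ c : G.Cell, v < c.1 → E c = 0)
    (i : Fin G.m) : NN G E (v, i) = ∑ j ∈ Finset.Ico (i : ℕ) G.m,
      if h : j < G.m then E (v, ⟨j, h⟩) else 0 := by
  classical
  unfold NN
  rw [Fintype.sum_prod_type, Finset.sum_eq_single v]
  · have h1 : ∀ j : Fin G.m, (if G.Le (v, i) (v, j) then E (v, j) else 0)
        = if (i : ℕ) ≤ j then E (v, j) else 0 := by
      intro j
      by_cases h : (i : ℕ) ≤ j
      · rw [if_pos h, if_pos (show G.Le (v, i) (v, j) from ⟨Relation.ReflTransGen.refl, h⟩)]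
      · rw [if_neg h, if_neg (fun h' : G.Le (v, i) (v, j) => h h'.2)]
    rw [Finset.sum_congr rfl fun j _ => h1 j, ← Finset.sum_filter]
    symm
    refine Finset.sum_bij (fun (j : ℕ) hj => (⟨j, (Finset.mem_Ico.1 hj).2⟩ : Fin G.m)) ?_ ?_ ?_ ?_
    · intro j hj
      exact Finset.mem_filter.2 ⟨Finset.mem_univ _, (Finset.mem_Ico.1 hj).1⟩
    · intro j _ j' _ h
      exact congrArg (fun x : Fin G.m => (x : ℕ)) h
    · intro j hj
      exact ⟨j, Finset.mem_Ico.2 ⟨(Finset.mem_filter.1 hj).2, j.2⟩, rfl⟩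
    · intro j hj
      rw [dif_pos (Finset.mem_Ico.1 hj).2]
  · intro w _ hw
    refine Finset.sum_eq_zero fun j _ => ?_
    by_cases h : G.Le (v, i) (w, j)
    · rw [if_pos h]
      exact hE (w, j) (lt_of_le_of_ne (G.anc_le h.1) (Ne.symm hw))
    · rw [if_neg h]
  · intro h
    exact absurd (Finset.mem_univ _) h

/-- the exponents after the integration over `X_v` -/
noncomputable def Ered (E : G.Cell → ℝ) (v : Fin G.K) (c : G.Cell) : ℝ :=
  (if c.1 = v then 0 else E c) + if G.par v = some c.1 then E (v, c.2) else 0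

theorem NN_red (E : G.Cell → ℝ) (v : Fin G.K) (hE : ∀ c : G.Cell, v < c.1 → E c = 0)
    (c : G.Cell) : NN G (Ered G E v) c = if c.1 = v then 0 else NN G E c := by
  classical
  have hsplit : NN G (Ered G E v) c = (∑ c' : G.Cell, if G.Le c c' then
      (if c'.1 = v then 0 else E c') else 0) +
      ∑ c' : G.Cell, if G.Le c c' then (if G.par v = some c'.1 then E (v, c'.2) else 0) else 0 := by
    unfold NN Ered
    rw [← Finset.sum_add_distrib]
    refine Finset.sum_congr rfl fun c' _ => ?_
    split_ifs <;> simp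
  have h2 : (∑ c' : G.Cell, if G.Le c c' then
        (if G.par v = some c'.1 then E (v, c'.2) else 0) else 0)
      = ∑ j : Fin G.m, if (∃ u, G.par v = some u ∧ G.Anc c.1 u) ∧ (c.2 : ℕ) ≤ j then
        E (v, j) else 0 := by
    rw [Fintype.sum_prod_type, Finset.sum_comm]
    refine Finset.sum_congr rfl fun j _ => ?_
    rcases hv : G.par v with _ | u
    · rw [Finset.sum_eq_zero, if_neg]
      · rintro ⟨⟨u, hu, _⟩, _⟩
        exact absurd hu (by simp)
      · intro w _
        simp
    · rw [Finset.sum_eq_single u]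
      · by_cases h : G.Le c (u, j)
        · rw [if_pos h, if_pos rfl, if_pos ⟨⟨u, rfl, h.1⟩, h.2⟩]
        · rw [if_neg h, if_neg]
          rintro ⟨⟨u', hu', h3⟩, h4⟩
          have : u = u' := Option.some_injective _ hu'
          subst this
          exact h ⟨h3, h4⟩
      · intro w _ hw
        have : ¬ (some u = some w) := fun h => hw (Option.some_injective _ h).symm
        rw [if_neg this]
        simp
      · intro h
        exact absurd (Finset.mem_univ _) h
  have h3 : NN G E c = (∑ c' : G.Cell, if G.Le c c' then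
      (if c'.1 = v then 0 else E c') else 0) +
      ∑ j : Fin G.m, if G.Anc c.1 v ∧ (c.2 : ℕ) ≤ j then E (v, j) else 0 := by
    have h4 : ∀ c' : G.Cell, (if G.Le c c' then E c' else 0)
        = (if G.Le c c' then (if c'.1 = v then 0 else E c') else 0) +
          if c'.1 = v then (if G.Le c c' then E c' else 0) else 0 := by
      intro c'
      split_ifs <;> simp
    unfold NN
    rw [Finset.sum_congr rfl fun c' _ => h4 c', Finset.sum_add_distrib]
    congr 1
    rw [Fintype.sum_prod_type, Finset.sum_eq_single v]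
    · refine Finset.sum_congr rfl fun j _ => ?_
      rw [if_pos rfl]
      exact if_congr Iff.rfl rfl rfl
    · intro w _ hw
      exact Finset.sum_eq_zero fun j _ => if_neg hw
    · intro h
      exact absurd (Finset.mem_univ _) h
  rw [hsplit, h2]
  by_cases hc : c.1 = v
  · rw [if_pos hc, Finset.sum_eq_zero, Finset.sum_eq_zero, add_zero]
    · intro j _
      rw [if_neg]
      rintro ⟨⟨u, hu, h5⟩, _⟩
      rw [hc] at h5
      exact G.anc_par_ne hu h5
    · intro c' _
      by_cases h5 : G.Le c c'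
      · rw [if_pos h5]
        by_cases h6 : c'.1 = v
        · rw [if_pos h6]
        · rw [if_neg h6]
          have h7 := G.anc_le h5.1
          rw [hc] at h7
          exact hE c' (lt_of_le_of_ne h7 (Ne.symm h6))
      · rw [if_neg h5]
  · rw [if_neg hc, h3]
    congr 1
    refine Finset.sum_congr rfl fun j _ => ?_
    have h5 : (∃ u, G.par v = some u ∧ G.Anc c.1 u) ↔ G.Anc c.1 v := by
      rcases hv : G.par v with _ | u
      · rw [G.anc_none hv]
        constructor
        · rintro ⟨u, hu, _⟩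
          exact absurd hu (by simp)
        · intro h
          exact absurd h hc
      · rw [G.anc_some hv]
        constructor
        · rintro ⟨u', hu', h6⟩
          have : u = u' := Option.some_injective _ hu'
          subst this
          exact Or.inr h6
        · rintro (h6 | h6)
          · exact absurd h6 hc
          · exact ⟨u, rfl, h6⟩
    exact if_congr (and_congr_left' h5) rfl rfl

/-- integration over one vertex -/
theorem int_vertex (v : Fin G.K) (E : G.Cell → ℝ) (hE0 : ∀ c, 0 ≤ E c)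
    (hE : ∀ c : G.Cell, v < c.1 → E c = 0) :
    ∫⁻ x : G.Var → ℤ_[q], ∏ c : G.Cell, ((nc q G x c : ℝ≥0) : ℝ≥0∞) ^ E c ∂(hm q G.Var)
      = (∫⁻ x : G.Var → ℤ_[q], ∏ c : G.Cell, ((nc q G x c : ℝ≥0) : ℝ≥0∞) ^ Ered G E v c
          ∂(hm q G.Var)) *
        ∏ i : Fin G.m, phN q (G.n v - i) (NN G E (v, i)) := by
  classical
  set s : Finset G.Var := Finset.univ.filter fun k => k.1 = v with hs
  have hmem : ∀ p : Fin (G.rows v) × Fin (G.n v), (⟨v, p⟩ : G.Var) ∈ s := fun p =>
    Finset.mem_filter.2 ⟨Finset.mem_univ _, rfl⟩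
  let r : Fin (G.rows v) × Fin (G.n v) ≃ s := Equiv.ofBijective (fun p => ⟨⟨v, p⟩, hmem p⟩) ⟨by
    intro p p' h
    have h1 := congrArg Subtype.val h
    exact eq_of_heq (Sigma.mk.inj h1).2, by
    rintro ⟨⟨w, p⟩, hp⟩
    have h1 : w = v := (Finset.mem_filter.1 hp).2
    subst h1
    exact ⟨p, rfl⟩⟩
  set a : ℕ → ℝ := fun i => if h : i < G.m then E (v, ⟨i, h⟩) else 0 with ha
  have ha0 : ∀ i, 0 ≤ a i := by
    intro i
    rw [ha]
    change 0 ≤ if h : i < G.m then E (v, ⟨i, h⟩) else 0
    split_ifs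
    · exact hE0 _
    · exact le_rfl
  set C : ℝ≥0∞ := ∏ i : Fin G.m, phN q (G.n v - i) (NN G E (v, i)) with hC
  have hCeq : ∏ i ∈ Finset.range G.m, phN q (G.n v - i) (∑ j ∈ Finset.Ico i G.m, a j) = C := by
    rw [Finset.prod_range, hC]
    refine Finset.prod_congr rfl fun i _ => ?_
    rw [row_E G E v hE i]
  have hmeas : ∀ F : G.Cell → ℝ, Measurable fun x : G.Var → ℤ_[q] =>
      ∏ c : G.Cell, ((nc q G x c : ℝ≥0) : ℝ≥0∞) ^ F c := fun F =>
    Finset.measurable_prod _ fun c _ => meas_nc q G c (F c)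
  have hmain := lintegral_block q s
    (fun x => ∏ c : G.Cell, ((nc q G x c : ℝ≥0) : ℝ≥0∞) ^ E c) (hmeas E)
    (fun x => (∏ c : G.Cell, ((nc q G x c : ℝ≥0) : ℝ≥0∞) ^ Ered G E v c) * C)
    ((hmeas _).mul_const _) ?_
  · rw [hmain, lintegral_mul_const _ (hmeas _)]
  · intro x
    have hlow : ∀ (y : s → ℤ_[q]) (k : G.Var), k.1 < v →
        Function.updateFinset x s y k = x k := by
      intro y k hk
      rw [Function.updateFinset, dif_neg]
      intro h1
      exact hk.ne (Finset.mem_filter.1 h1).2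
    have hpm : ∀ (y : s → ℤ_[q]) (w : Fin G.K), w < v →
        PP q G (Function.updateFinset x s y) w = PP q G x w := by
      intro y w hw
      funext i j
      exact G.pm_congr _ _ w (fun k hk => hlow y k (hk.trans_lt hw)) i j
    have hqm : ∀ (y : s → ℤ_[q]) (i k : ℕ),
        G.qm (Function.updateFinset x s y) v i k = G.qm x v i k := fun y i k =>
      G.qm_congr _ _ v (fun k hk => hlow y k hk) i k
    set Q : ℕ → Fin (G.rows v) → ℤ_[q] := fun i k => G.qm x v i k with hQ
    have hPv : ∀ (y : s → ℤ_[q]) (i : ℕ), i < G.m →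
        PP q G (Function.updateFinset x s y) v i
          = fun j : Fin (G.n v) => ∑ l : Fin (G.rows v), Q i l * y (r (l, j)) := by
      intro y i hi
      funext j
      change G.pm _ v i j = _
      rw [G.pm_eq _ v i j hi, Finset.sum_range]
      refine Finset.sum_congr rfl fun l _ => ?_
      rw [hqm]
      congr 1
      rw [MTree.ent, dif_pos ⟨l.2, j.2⟩, Function.updateFinset]
      rw [dif_pos (hmem (l, j))]
      rfl
    -- the rows off `v`
    set A : ℝ≥0∞ := ∏ w ∈ Finset.univ.erase v, ∏ i : Fin G.m,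
      ((nc q G x (w, i) : ℝ≥0) : ℝ≥0∞) ^ E (w, i) with hA
    have hf : ∀ y : s → ℤ_[q], ∏ c : G.Cell,
        ((nc q G (Function.updateFinset x s y) c : ℝ≥0) : ℝ≥0∞) ^ E c
        = A * ∏ i ∈ Finset.range G.m, ((DD (i + 1) (fun i (j : Fin (G.n v)) =>
          ∑ l : Fin (G.rows v), Q i l * y (r (l, j))) : ℝ≥0) : ℝ≥0∞) ^ a i := by
      intro y
      rw [Fintype.prod_prod_type, ← Finset.mul_prod_erase _ _ (Finset.mem_univ v), mul_comm]
      congr 1
      · refine Finset.prod_congr rfl fun w hw => ?_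
        refine Finset.prod_congr rfl fun i _ => ?_
        rcases lt_or_gt_of_ne (Finset.mem_erase.1 hw).1 with h | h
        · unfold nc
          rw [hpm y w h]
        · rw [hE (w, i) h, ENNReal.rpow_zero, ENNReal.rpow_zero]
      · rw [Finset.prod_range]
        refine Finset.prod_congr rfl fun i _ => ?_
        have h1 : a i = E (v, i) := by
          rw [ha]
          exact dif_pos i.2
        rw [h1]
        congr 2
        unfold nc
        refine DD_congr q fun l hl => ?_
        have hi := i.2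
        exact hPv y l (by
          change l < (i : ℕ) + 1 at hl
          omega)
    have hm2 : Measurable fun y : s → ℤ_[q] => ∏ i ∈ Finset.range G.m,
        ((DD (i + 1) (fun i (j : Fin (G.n v)) =>
          ∑ l : Fin (G.rows v), Q i l * y (r (l, j))) : ℝ≥0) : ℝ≥0∞) ^ a i :=
      Finset.measurable_prod _ fun i _ => meas_DD q (i + 1)
        (fun (y : s → ℤ_[q]) i (j : Fin (G.n v)) => ∑ l : Fin (G.rows v), Q i l * y (r (l, j)))
        (fun i j => by fun_prop) _
    simp only [hf]
    rw [lintegral_const_mul _ hm2, int_block q r (G.m_le_rows v) (G.le v) Q a ha0, hCeq,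
      ← mul_assoc]
    congr 1
    -- the exponents
    rw [Fintype.prod_prod_type]
    rcases hv : G.par v with _ | u
    · have h1 : ∀ c : G.Cell, Ered G E v c = if c.1 = v then 0 else E c := by
        intro c
        have h0 : ¬ ((none : Option (Fin G.K)) = some c.1) := by simp
        unfold Ered
        rw [hv, if_neg h0, add_zero]
      have h2 : ∀ i ∈ Finset.range G.m, ((DD (i + 1) Q : ℝ≥0) : ℝ≥0∞) ^ a i = 1 := by
        intro i hi
        have h3 : Q = fun i (j : Fin (G.rows v)) => if i = (j : ℕ) then (1 : ℤ_[q]) else 0 := by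
          funext i j
          rw [hQ]
          unfold MTree.qm
          rw [hv]
        rw [h3, DD_one q (i + 1) ((Finset.mem_range.1 hi).trans_le (G.m_le_rows v)),
          ENNReal.coe_one, ENNReal.one_rpow]
      rw [Finset.prod_eq_one h2, mul_one, ← Finset.mul_prod_erase _ _ (Finset.mem_univ v)]
      have h3 : ∏ i : Fin G.m, ((nc q G x (v, i) : ℝ≥0) : ℝ≥0∞) ^ Ered G E v (v, i) = 1 :=
        Finset.prod_eq_one fun i _ => by rw [h1, if_pos rfl, ENNReal.rpow_zero]
      rw [h3, one_mul, hA]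
      refine Finset.prod_congr rfl fun w hw => ?_
      refine Finset.prod_congr rfl fun i _ => ?_
      rw [h1, if_neg (Finset.mem_erase.1 hw).1]
    · have huv : u ≠ v := (G.lt v u hv).ne
      have h1 : ∀ w i, Ered G E v (w, i) = (if w = v then 0 else E (w, i)) +
          if w = u then E (v, i) else 0 := by
        intro w i
        unfold Ered
        rw [hv]
        congr 1
        by_cases h : w = u
        · rw [if_pos h, if_pos (by rw [h])]
        · rw [if_neg h, if_neg fun h' => h (Option.some_injective _ h').symm]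
      have h2 : ∀ i ∈ Finset.range G.m, DD (i + 1) Q = DD (i + 1) (PP q G x u) := by
        intro i hi
        have hr : G.rows v = G.n u := by
          unfold MTree.rows
          rw [hv]
        have h3 : Q = fun i (j : Fin (G.rows v)) => G.pm x u i j := by
          funext i j
          rw [hQ]
          unfold MTree.qm
          rw [hv]
        rw [h3]
        exact DD_cast q hr (i + 1) (G.pm x u)
      rw [← Finset.mul_prod_erase _ _ (Finset.mem_univ v)]
      have h3 : ∏ i : Fin G.m, ((nc q G x (v, i) : ℝ≥0) : ℝ≥0∞) ^ Ered G E v (v, i) = 1 :=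
        Finset.prod_eq_one fun i _ => by
          rw [h1, if_pos rfl, if_neg huv.symm, add_zero, ENNReal.rpow_zero]
      rw [h3, one_mul, hA]
      have hu : u ∈ Finset.univ.erase v := Finset.mem_erase.2 ⟨huv, Finset.mem_univ _⟩
      rw [← Finset.mul_prod_erase _ _ hu, ← Finset.mul_prod_erase _ _ hu]
      have h4 : ∏ i : Fin G.m, ((nc q G x (u, i) : ℝ≥0) : ℝ≥0∞) ^ Ered G E v (u, i)
          = (∏ i : Fin G.m, ((nc q G x (u, i) : ℝ≥0) : ℝ≥0∞) ^ E (u, i)) *
            ∏ i ∈ Finset.range G.m, ((DD (i + 1) Q : ℝ≥0) : ℝ≥0∞) ^ a i := by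
        rw [Finset.prod_range, ← Finset.prod_mul_distrib]
        refine Finset.prod_congr rfl fun i _ => ?_
        rw [h1, if_neg huv, if_pos rfl, ENNReal.rpow_add_of_nonneg _ _ (hE0 _) (hE0 _),
          h2 i (Finset.mem_range.2 i.2)]
        congr 1
        have h5 : a i = E (v, i) := by
          rw [ha]
          exact dif_pos i.2
        rw [h5]
        rfl
      have h5 : ∏ w ∈ (Finset.univ.erase v).erase u, ∏ i : Fin G.m,
          ((nc q G x (w, i) : ℝ≥0) : ℝ≥0∞) ^ Ered G E v (w, i)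
          = ∏ w ∈ (Finset.univ.erase v).erase u, ∏ i : Fin G.m,
            ((nc q G x (w, i) : ℝ≥0) : ℝ≥0∞) ^ E (w, i) := by
        refine Finset.prod_congr rfl fun w hw => ?_
        refine Finset.prod_congr rfl fun i _ => ?_
        have hw1 := Finset.mem_erase.1 hw
        have hw2 := Finset.mem_erase.1 hw1.2
        rw [h1, if_neg hw2.1, if_neg hw1.1, add_zero]
      rw [h4, h5]
      ring

/-- **The integral of the norms of the ideals.** -/
theorem int_tree (E : G.Cell → ℝ) (hE0 : ∀ c, 0 ≤ E c) :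
    ∫⁻ x : G.Var → ℤ_[q], ∏ c : G.Cell, ((nc q G x c : ℝ≥0) : ℝ≥0∞) ^ E c ∂(hm q G.Var)
      = ∏ c : G.Cell, phN q (G.n c.1 - c.2) (NN G E c) := by
  classical
  have key : ∀ k : ℕ, k ≤ G.K → ∀ E : G.Cell → ℝ, (∀ c, 0 ≤ E c) →
      (∀ c : G.Cell, k ≤ (c.1 : ℕ) → E c = 0) →
      ∫⁻ x : G.Var → ℤ_[q], ∏ c : G.Cell, ((nc q G x c : ℝ≥0) : ℝ≥0∞) ^ E c ∂(hm q G.Var)
        = ∏ c : G.Cell, phN q (G.n c.1 - c.2) (NN G E c) := by
    intro k
    induction k with
    | zero =>
      intro _ E _ hE
      have h1 : ∀ c, E c = 0 := fun c => hE c (Nat.zero_le _)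
      have h2 : ∀ c, NN G E c = 0 := by
        intro c
        unfold NN
        refine Finset.sum_eq_zero fun c' _ => ?_
        rw [h1, ite_self]
      simp only [h1, h2, ENNReal.rpow_zero, Finset.prod_const_one, lintegral_one, measure_univ,
        phN_zero]
    | succ k ih =>
      intro hk E hE0 hE
      set v : Fin G.K := ⟨k, hk⟩ with hv
      have hEv : ∀ c : G.Cell, v < c.1 → E c = 0 := fun c hc => hE c hc
      have hR0 : ∀ c, 0 ≤ Ered G E v c := by
        intro c
        unfold Ered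
        refine add_nonneg ?_ ?_
        · split_ifs
          · exact le_rfl
          · exact hE0 c
        · split_ifs
          · exact hE0 _
          · exact le_rfl
      have hRk : ∀ c : G.Cell, k ≤ (c.1 : ℕ) → Ered G E v c = 0 := by
        intro c hc
        unfold Ered
        have h1 : ¬ G.par v = some c.1 := by
          intro h2
          have h3 : (c.1 : ℕ) < k := G.lt v c.1 h2
          omega
        rw [if_neg h1, add_zero]
        by_cases h2 : c.1 = v
        · rw [if_pos h2]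
        · rw [if_neg h2]
          refine hE c ?_
          have h3 : (c.1 : ℕ) ≠ k := fun h => h2 (Fin.ext h)
          omega
      rw [int_vertex q G v E hE0 hEv, ih (by omega) _ hR0 hRk]
      have h1 : ∀ c : G.Cell, phN q (G.n c.1 - c.2) (NN G (Ered G E v) c)
          = if c.1 = v then 1 else phN q (G.n c.1 - c.2) (NN G E c) := by
        intro c
        rw [NN_red G E v hEv c]
        split_ifs
        · exact phN_zero q _
        · rfl
      simp only [h1]
      rw [Fintype.prod_prod_type, Fintype.prod_prod_type,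
        ← Finset.mul_prod_erase Finset.univ (fun w => ∏ i : Fin G.m,
          phN q (G.n (w, i).1 - (w, i).2) (NN G E (w, i))) (Finset.mem_univ v),
        ← Finset.mul_prod_erase _ _ (Finset.mem_univ v)]
      simp only [if_true, Finset.prod_const_one, one_mul]
      rw [mul_comm]
      congr 1
      refine Finset.prod_congr rfl fun w hw => ?_
      refine Finset.prod_congr rfl fun i _ => ?_
      rw [if_neg (Finset.mem_erase.1 hw).1]
  exact key G.K le_rfl E hE0 fun c hc => absurd c.1.2 (not_lt.2 hc)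

end Pool.Agent.Run7.h827.MP
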