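import Pool.Agent.TH192.PA.SkewNorm

set_option autoImplicit false
set_option linter.unusedSectionVars false
set_option linter.unusedVariables false

/-! # Norms of the maximal minors of the first rows of a `p`-adic matrix -/

namespace Pool.Agent.Run7.h827.MP

open Matrix Pool.Agent.TH192.PA
open scoped NNReal

variable {q : ℕ} [Fact q.Prime]

/-- the maximal norm of the maximal minors of the first `k` rows -/
noncomputable def DD {n : ℕ} (k : ℕ) (Y : ℕ → Fin n → ℤ_[q]) : ℝ≥0 :=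
  Finset.univ.sup fun c : Fin k ↪o Fin n => ‖(Matrix.of fun i j : Fin k => Y i (c j)).det‖₊

theorem emb_id {k : ℕ} (r : Fin k ↪o Fin k) (i : Fin k) : r i = i := by
  have h1 : Function.Surjective r := Finite.surjective_of_injective r.injective
  have h2 : RelIso.ofSurjective r h1 = OrderIso.refl _ := Subsingleton.elim _ _
  exact congrArg (fun e : Fin k ≃o Fin k => e i) h2

theorem DD_eq_mn {n : ℕ} (k : ℕ) (Y : ℕ → Fin n → ℤ_[q]) :
    DD k Y = mn k (Matrix.of fun (i : Fin k) (j : Fin n) => Y i j) := by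
  rw [mn_eq_sup]
  refine le_antisymm (Finset.sup_le fun c _ => ?_) (Finset.sup_le fun rc _ => ?_)
  · refine le_trans (le_of_eq ?_) (Finset.le_sup
      (f := fun rc : (Fin k ↪o Fin k) × (Fin k ↪o Fin n) => ‖Pool.Agent.TH192.DT.minorsOf
        (Matrix.of fun (i : Fin k) (j : Fin n) => Y i j) k rc‖₊)
      (Finset.mem_univ ((RelEmbedding.refl _ : Fin k ↪o Fin k), c)))
    rfl
  · refine le_trans (le_of_eq ?_) (Finset.le_sup
      (f := fun c : Fin k ↪o Fin n => ‖(Matrix.of fun i j : Fin k => Y i (c j)).det‖₊)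
      (Finset.mem_univ rc.2))
    have h1 : Matrix.submatrix (Matrix.of fun (i : Fin k) (j : Fin n) => Y i j) rc.1 rc.2
        = Matrix.of fun i j : Fin k => Y i (rc.2 j) := by
      ext1 i j
      simp only [Matrix.submatrix_apply, Matrix.of_apply]
      rw [emb_id rc.1 i]
    change ‖(Matrix.submatrix (Matrix.of fun (i : Fin k) (j : Fin n) => Y i j) rc.1 rc.2).det‖₊ = _
    rw [h1]

theorem DD_mul_le {n : ℕ} (k : ℕ) (Y : ℕ → Fin n → ℤ_[q]) (W : Matrix (Fin n) (Fin n) ℤ_[q]) :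
    DD k (fun i => Y i ᵥ* W) ≤ DD k Y := by
  rw [DD_eq_mn, DD_eq_mn]
  exact mn_mono (minI_mul_le' (Matrix.of fun (i : Fin k) (j : Fin n) => Y i j) W)

theorem DD_mul {n : ℕ} (k : ℕ) (Y : ℕ → Fin n → ℤ_[q]) (V W : Matrix (Fin n) (Fin n) ℤ_[q])
    (h : V * W = 1) : DD k (fun i => Y i ᵥ* W) = DD k Y := by
  refine le_antisymm (DD_mul_le k Y W) ?_
  have h1 := DD_mul_le k (fun i => Y i ᵥ* W) V
  have h2 : (fun i => (Y i ᵥ* W) ᵥ* V) = Y := by
    funext i
    rw [Matrix.vecMul_vecMul, mul_eq_one_comm.1 h, Matrix.vecMul_one]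
  rwa [h2] at h1

theorem emb_ge {k n : ℕ} (c : Fin k ↪o Fin n) (i : Fin k) : (i : ℕ) ≤ c i := by
  obtain ⟨i, hi⟩ := i
  induction i with
  | zero => exact Nat.zero_le _
  | succ j ih =>
    have h1 := ih (by omega)
    have h2 : c ⟨j, by omega⟩ < c ⟨j + 1, hi⟩ := c.strictMono (by
      change j < j + 1
      omega)
    have h3 : ((c ⟨j, by omega⟩ : Fin n) : ℕ) < c ⟨j + 1, hi⟩ := h2
    change j + 1 ≤ _
    change j ≤ _ at h1
    omega

/-- lower triangular rows -/
theorem DD_lower {n : ℕ} (k : ℕ) (hk : k ≤ n) (L : ℕ → Fin n → ℤ_[q])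
    (hL : ∀ i, i < k → ∀ j : Fin n, i < j → L i j = 0) :
    DD k L = ∏ i : Fin k, ‖L i ⟨i, lt_of_lt_of_le i.2 hk⟩‖₊ := by
  have hdet : ∀ c : Fin k ↪o Fin n, (Matrix.of fun i j : Fin k => L i (c j)).det
      = ∏ i : Fin k, L i (c i) := by
    intro c
    rw [Matrix.det_of_isLowerTriangular]
    · rfl
    · intro i j hij
      have hij' : i < j := hij
      refine hL i i.2 _ ?_
      have h1 := emb_ge c j
      have h2 : (i : ℕ) < j := hij'
      omega
  refine le_antisymm (Finset.sup_le fun c _ => ?_) ?_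
  · rw [hdet, nnnorm_prod]
    refine Finset.prod_le_prod' fun i _ => ?_
    by_cases h : (c i : ℕ) = i
    · have h2 : c i = ⟨i, lt_of_lt_of_le i.2 hk⟩ := Fin.ext h
      rw [h2]
    · have h1 := emb_ge c i
      rw [hL i i.2 (c i) (by omega), nnnorm_zero]
      exact zero_le
  · have h1 := Finset.le_sup
      (f := fun c : Fin k ↪o Fin n => ‖(Matrix.of fun i j : Fin k => L i (c j)).det‖₊)
      (Finset.mem_univ (Fin.castLEOrderEmb hk))
    refine le_trans (le_of_eq ?_) h1
    rw [hdet, nnnorm_prod]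
    rfl

theorem DL {n : ℕ} (k : ℕ) (hk : k ≤ n) (Y : ℕ → Fin n → ℤ_[q])
    (V W : Matrix (Fin n) (Fin n) ℤ_[q]) (h : V * W = 1)
    (hL : ∀ i, i < k → ∀ j : Fin n, i < j → (Y i ᵥ* W) j = 0) :
    DD k Y = ∏ i : Fin k, ‖(Y i ᵥ* W) ⟨i, lt_of_lt_of_le i.2 hk⟩‖₊ := by
  rw [← DD_mul k Y V W h]
  exact DD_lower k hk _ hL

/-- one step of the triangularization -/
theorem exists_T {n : ℕ} (k : Fin n) (z : Fin n → ℤ_[q]) :
    ∃ T T' : Matrix (Fin n) (Fin n) ℤ_[q], T' * T = 1 ∧
      (∀ a : Fin n → ℤ_[q], (∀ j, k ≤ j → a j = 0) → a ᵥ* T = a) ∧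
      (∀ j, k < j → (z ᵥ* T) j = 0) ∧
      ‖(z ᵥ* T) k‖₊ = (Finset.univ.filter fun j => k ≤ j).sup fun j => ‖z j‖₊ := by
  classical
  obtain ⟨j0, hj0, hmax⟩ := Finset.exists_max_image (Finset.univ.filter fun j => k ≤ j)
    (fun j => ‖z j‖₊) ⟨k, Finset.mem_filter.2 ⟨Finset.mem_univ _, le_rfl⟩⟩
  have hkj0 : k ≤ j0 := (Finset.mem_filter.1 hj0).2
  have hd : ∀ j, ∃ d, k ≤ j → z j = z j0 * d := by
    intro j
    by_cases h : k ≤ j
    · obtain ⟨d, hd⟩ := dvd_of_norm_le q (z j) (z j0)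
        (hmax j (Finset.mem_filter.2 ⟨Finset.mem_univ _, h⟩))
      exact ⟨d, fun _ => hd⟩
    · exact ⟨0, fun h' => absurd h' h⟩
  choose d hd using hd
  set σ : Equiv.Perm (Fin n) := Equiv.swap k j0 with hσ
  have hσge : ∀ j, k ≤ j → k ≤ σ j := by
    intro j hj
    by_cases h1 : j = k
    · rw [h1, hσ, Equiv.swap_apply_left]
      exact hkj0
    · by_cases h2 : j = j0
      · rw [h2, hσ, Equiv.swap_apply_right]
      · rw [hσ, Equiv.swap_apply_of_ne_of_ne h1 h2]
        exact hj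
  have hσlt : ∀ j, j < k → σ j = j := by
    intro j hj
    rw [hσ, Equiv.swap_apply_of_ne_of_ne (ne_of_lt hj) (ne_of_lt (lt_of_lt_of_le hj hkj0))]
  set S : Matrix (Fin n) (Fin n) ℤ_[q] := (1 : Matrix (Fin n) (Fin n) ℤ_[q]).submatrix id σ with hS
  have hSa : ∀ a : Fin n → ℤ_[q], a ᵥ* S = fun j => a (σ j) := by
    intro a
    funext j
    rw [Matrix.vecMul, dotProduct, Finset.sum_eq_single (σ j)]
    · have h1 : S (σ j) j = 1 := by
        rw [hS, Matrix.submatrix_apply, id_eq, Matrix.one_apply_eq]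
      rw [h1, mul_one]
    · intro l _ hl
      have h1 : S l j = 0 := by
        rw [hS, Matrix.submatrix_apply, id_eq, Matrix.one_apply_ne hl]
      rw [h1, mul_zero]
    · intro h
      exact absurd (Finset.mem_univ _) h
  have hSS : S * S = 1 := by
    ext i j
    rw [Matrix.mul_apply, Finset.sum_eq_single (σ j)]
    · have h1 : σ (σ j) = j := Equiv.swap_apply_self k j0 j
      rw [hS, Matrix.submatrix_apply, Matrix.submatrix_apply, id_eq, id_eq, h1,
        Matrix.one_apply_eq, mul_one]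
    · intro l _ hl
      have h1 : S l j = 0 := by
        rw [hS, Matrix.submatrix_apply, id_eq, Matrix.one_apply_ne hl]
      rw [h1, mul_zero]
    · intro h
      exact absurd (Finset.mem_univ _) h
  set c : Fin n → ℤ_[q] := fun j => if k < j then d (σ j) else 0 with hc
  have hck : c k = 0 := by
    rw [hc]
    exact if_neg (lt_irrefl _)
  set N : Matrix (Fin n) (Fin n) ℤ_[q] := Matrix.of fun i j => if i = k then c j else 0 with hN
  have hNN : N * N = 0 := by
    ext i j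
    rw [Matrix.mul_apply, Finset.sum_eq_zero]
    · rfl
    · intro l _
      by_cases hl : l = k
      · subst hl
        have : N i l = 0 := by
          rw [hN, Matrix.of_apply]
          split_ifs
          · exact hck
          · rfl
        rw [this, zero_mul]
      · have : N l j = 0 := by
          rw [hN, Matrix.of_apply, if_neg hl]
        rw [this, mul_zero]
  have hNa : ∀ a : Fin n → ℤ_[q], a ᵥ* N = fun j => a k * c j := by
    intro a
    funext j
    rw [Matrix.vecMul, dotProduct, Finset.sum_eq_single k]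
    · rw [hN, Matrix.of_apply, if_pos rfl]
    · intro l _ hl
      rw [hN, Matrix.of_apply, if_neg hl, mul_zero]
    · intro h
      exact absurd (Finset.mem_univ _) h
  have hTa : ∀ a : Fin n → ℤ_[q], a ᵥ* (S * (1 - N)) = fun j => a (σ j) - a (σ k) * c j := by
    intro a
    rw [← Matrix.vecMul_vecMul, hSa, Matrix.vecMul_sub, Matrix.vecMul_one, hNa]
    rfl
  refine ⟨S * (1 - N), (1 + N) * S, ?_, ?_, ?_, ?_⟩
  · have h1 : (1 + N) * S * (S * (1 - N)) = (1 + N) * (S * S) * (1 - N) := by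
      simp only [mul_assoc]
    rw [h1, hSS, mul_one]
    have h2 : (1 + N) * (1 - N) = 1 - N * N := by
      noncomm_ring
    rw [h2, hNN, sub_zero]
  · intro a ha
    rw [hTa]
    funext j
    have h0 : a (σ k) = 0 := ha _ (hσge k le_rfl)
    change a (σ j) - a (σ k) * c j = a j
    rw [h0, zero_mul, sub_zero]
    rcases lt_or_ge j k with h | h
    · rw [hσlt j h]
    · rw [ha j h, ha _ (hσge j h)]
  · intro j hj
    rw [hTa]
    change z (σ j) - z (σ k) * c j = 0
    have h1 : z (σ k) = z j0 := by rw [hσ, Equiv.swap_apply_left]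
    rw [h1, hc]
    change z (σ j) - z j0 * (if k < j then d (σ j) else 0) = 0
    rw [if_pos hj, ← hd (σ j) (hσge j hj.le), sub_self]
  · rw [hTa]
    change ‖z (σ k) - z (σ k) * c k‖₊ = _
    rw [hck, mul_zero, sub_zero]
    have h1 : z (σ k) = z j0 := by rw [hσ, Equiv.swap_apply_left]
    rw [h1]
    exact le_antisymm (Finset.le_sup (f := fun j => ‖z j‖₊) hj0) (Finset.sup_le fun j hj => hmax j hj)

/-- triangularization of the first `m` rows by operations on the columns -/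
theorem exists_tri {n : ℕ} (Y : ℕ → Fin n → ℤ_[q]) (m : ℕ) (hm : m ≤ n) :
    ∃ V W : Matrix (Fin n) (Fin n) ℤ_[q], V * W = 1 ∧
      ∀ i, i < m → ∀ j : Fin n, i < j → (Y i ᵥ* W) j = 0 := by
  induction m with
  | zero => exact ⟨1, 1, one_mul 1, fun i hi => absurd hi (Nat.not_lt_zero _)⟩
  | succ m ih =>
    obtain ⟨V, W, hVW, hL⟩ := ih (by omega)
    obtain ⟨T, T', hTT, hT1, hT2, -⟩ := exists_T (⟨m, by omega⟩ : Fin n) (Y m ᵥ* W)
    refine ⟨T' * V, W * T, ?_, ?_⟩
    · have h1 : T' * V * (W * T) = T' * (V * W) * T := by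
        simp only [mul_assoc]
      rw [h1, hVW, mul_one, hTT]
    · intro i hi j hij
      rw [← Matrix.vecMul_vecMul]
      rcases Nat.lt_succ_iff_lt_or_eq.1 hi with h | h
      · rw [hT1 (Y i ᵥ* W) fun j' hj' => hL i h j' (by
          have : m ≤ (j' : ℕ) := hj'
          omega)]
        exact hL i h j hij
      · subst h
        exact hT2 j hij

/-- the norms of the minors with one more row -/
theorem DD_succ {n : ℕ} (k : ℕ) (hk : k < n) (Y : ℕ → Fin n → ℤ_[q])
    (V W : Matrix (Fin n) (Fin n) ℤ_[q]) (h : V * W = 1)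
    (hL : ∀ i, i < k → ∀ j : Fin n, i < j → (Y i ᵥ* W) j = 0) :
    DD (k + 1) Y = DD k Y *
      (Finset.univ.filter fun j : Fin n => k ≤ (j : ℕ)).sup fun j => ‖(Y k ᵥ* W) j‖₊ := by
  obtain ⟨T, T', hTT, hT1, hT2, hT3⟩ := exists_T (⟨k, hk⟩ : Fin n) (Y k ᵥ* W)
  have hTV : T' * V * (W * T) = 1 := by
    have h1 : T' * V * (W * T) = T' * (V * W) * T := by
      simp only [mul_assoc]
    rw [h1, h, mul_one, hTT]
  have hfix : ∀ i, i < k → Y i ᵥ* (W * T) = Y i ᵥ* W := by
    intro i hi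
    rw [← Matrix.vecMul_vecMul]
    exact hT1 _ fun j' hj' => hL i hi j' (by
      have : k ≤ (j' : ℕ) := hj'
      omega)
  rw [DL k hk.le Y V W h hL, DL (k + 1) hk Y (T' * V) (W * T) hTV, Fin.prod_univ_castSucc]
  · congr 1
    · refine Finset.prod_congr rfl fun i _ => ?_
      have h1 := hfix i i.2
      change ‖(Y (i : ℕ) ᵥ* (W * T)) _‖₊ = _
      rw [h1]
      rfl
    · change ‖(Y k ᵥ* (W * T)) ⟨k, _⟩‖₊ = _
      rw [← Matrix.vecMul_vecMul]
      exact hT3
  · intro i hi j hij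
    rcases Nat.lt_succ_iff_lt_or_eq.1 hi with h1 | h1
    · rw [hfix i h1]
      exact hL i h1 j hij
    · subst h1
      rw [← Matrix.vecMul_vecMul]
      exact hT2 j hij

end Pool.Agent.Run7.h827.MP
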